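import Pool.Agent.P.MP_dba4bb_co.Ex.Fold

/-! Piecewise isometric maps of a band, and cutting intervals out of the band. -/

namespace Pool.Agent.P.MP_dba4bb_co.Pw

open Set

theorem poly_inter {F G : Set ℂ} (hF : Ex.Poly F) (hG : Ex.Poly G) : Ex.Poly (F ∩ G) := by
  obtain ⟨L, rfl⟩ := hF
  obtain ⟨M, rfl⟩ := hG
  refine ⟨L ++ M, ?_⟩
  ext z
  simp only [mem_inter_iff, mem_ofPred_eq, List.mem_append]
  exact ⟨fun h c hc => hc.elim (h.1 c) (h.2 c),
    fun h => ⟨fun c hc => h c (Or.inl hc), fun c hc => h c (Or.inr hc)⟩⟩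

theorem poly_half (α β γ : ℝ) (φ ψ : ℂ → ℝ) (h : ∀ z, φ z - ψ z = α * z.re + β * z.im - γ) :
    Ex.Poly {z | φ z ≤ ψ z} := by
  refine ⟨[(α, β, γ)], ?_⟩
  ext z
  simp only [mem_ofPred_eq, List.mem_singleton, forall_eq]
  constructor <;> intro h' <;> linarith [h z]

theorem poly_closed {F : Set ℂ} (hF : Ex.Poly F) : IsClosed F := by
  obtain ⟨L, rfl⟩ := hF
  have : {p : ℂ | ∀ c ∈ L, c.1 * p.re + c.2.1 * p.im ≤ c.2.2}
      = ⋂ c ∈ L, {p : ℂ | c.1 * p.re + c.2.1 * p.im ≤ c.2.2} := by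
    ext z; simp
  rw [this]
  exact isClosed_biInter fun c _ => isClosed_le (by fun_prop) (by fun_prop)

/-- the motion `z ↦ ε z + w` -/
def mv (ε : ℝ) (w z : ℂ) : ℂ := ⟨ε * z.re + w.re, ε * z.im + w.im⟩

theorem poly_mv {F : Set ℂ} (hF : Ex.Poly F) (ε : ℝ) (w : ℂ) : Ex.Poly (mv ε w ⁻¹' F) := by
  obtain ⟨L, rfl⟩ := hF
  refine ⟨L.map fun c => (c.1 * ε, c.2.1 * ε, c.2.2 - c.1 * w.re - c.2.1 * w.im), ?_⟩
  ext z
  simp only [mem_preimage, mem_ofPred_eq, List.forall_mem_map, mv]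
  refine forall₂_congr fun c _ => ?_
  constructor <;> intro h <;> linarith

theorem dist_mv {ε : ℝ} (hε : ε ^ 2 = 1) (w x y : ℂ) : dist (mv ε w x) (mv ε w y) = dist x y := by
  rw [Complex.dist_eq_re_im, Complex.dist_eq_re_im]
  congr 1
  simp only [mv]
  linear_combination ((x.re - y.re) ^ 2 + (x.im - y.im) ^ 2) * hε

/-- `f` is an isometry on each of finitely many polygons with union `S` -/
def PW (f : ℂ → E3) (S : Set ℂ) : Prop :=
  ∃ 𝓕 : Set (Set ℂ), 𝓕.Finite ∧ ⋃₀ 𝓕 = S ∧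
    ∀ F ∈ 𝓕, Ex.Poly F ∧ ∀ p ∈ F, ∀ q ∈ F, dist (f p) (f q) = dist p q

theorem PW.one {f : ℂ → E3} {S : Set ℂ} (hS : Ex.Poly S)
    (h : ∀ p ∈ S, ∀ q ∈ S, dist (f p) (f q) = dist p q) : PW f S :=
  ⟨{S}, finite_singleton _, sUnion_singleton _, fun F hF => by
    rw [mem_singleton_iff.1 hF]; exact ⟨hS, h⟩⟩

theorem PW.union {f : ℂ → E3} {S T : Set ℂ} (hS : PW f S) (hT : PW f T) : PW f (S ∪ T) := by
  obtain ⟨A, a1, a2, a3⟩ := hS
  obtain ⟨B, b1, b2, b3⟩ := hT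
  exact ⟨A ∪ B, a1.union b1, by rw [sUnion_union, a2, b2], fun F hF => hF.elim (a3 F) (b3 F)⟩

theorem PW.biUnion {ι : Type} {f : ℂ → E3} (I : Finset ι) (S : ι → Set ℂ)
    (h : ∀ i ∈ I, PW f (S i)) : PW f (⋃ i ∈ I, S i) := by
  classical
  induction I using Finset.induction_on with
  | empty => exact ⟨∅, finite_empty, by simp, by simp⟩
  | insert a s _ ih =>
    rw [Finset.set_biUnion_insert]
    exact (h a (Finset.mem_insert_self _ _)).union
      (ih fun i hi => h i (Finset.mem_insert_of_mem hi))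

theorem PW.inter {f : ℂ → E3} {S T : Set ℂ} (hS : PW f S) (hT : Ex.Poly T) : PW f (S ∩ T) := by
  obtain ⟨A, a1, a2, a3⟩ := hS
  refine ⟨(fun F => F ∩ T) '' A, a1.image _, ?_, ?_⟩
  · rw [sUnion_image, ← a2, sUnion_eq_biUnion, iUnion₂_inter]
  · rintro _ ⟨F, hF, rfl⟩
    exact ⟨poly_inter (a3 F hF).1 hT, fun p hp q hq => (a3 F hF).2 p hp.1 q hq.1⟩

theorem PW.congr {f g : ℂ → E3} {S : Set ℂ} (hS : PW f S)
    (h : ∀ p ∈ S, ∀ q ∈ S, dist (g p) (g q) = dist (f p) (f q)) : PW g S := by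
  obtain ⟨A, a1, a2, a3⟩ := hS
  refine ⟨A, a1, a2, fun F hF => ⟨(a3 F hF).1, fun p hp q hq => ?_⟩⟩
  have hs : F ⊆ S := a2 ▸ subset_sUnion_of_mem hF
  rw [h p (hs hp) q (hs hq), (a3 F hF).2 p hp q hq]

theorem PW.mv {f : ℂ → E3} {S : Set ℂ} (hS : PW f S) {ε : ℝ} (hε : ε ^ 2 = 1) (w : ℂ) :
    PW (fun z => f (mv ε w z)) (mv ε w ⁻¹' S) := by
  obtain ⟨A, a1, a2, a3⟩ := hS
  refine ⟨(fun F => Pw.mv ε w ⁻¹' F) '' A, a1.image _, ?_, ?_⟩
  · rw [sUnion_image, ← a2, sUnion_eq_biUnion, preimage_iUnion₂]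
  · rintro _ ⟨F, hF, rfl⟩
    refine ⟨poly_mv (a3 F hF).1 _ _, fun p hp q hq => ?_⟩
    rw [(a3 F hF).2 _ hp _ hq, dist_mv hε]

theorem PW.cont {f : ℂ → E3} {S : Set ℂ} (hS : PW f S) : ContinuousOn f S := by
  obtain ⟨A, a1, rfl, a3⟩ := hS
  have key : ∀ B : Set (Set ℂ), B.Finite → B ⊆ A → IsClosed (⋃₀ B) ∧ ContinuousOn f (⋃₀ B) := by
    intro B hB
    induction B, hB using Set.Finite.induction_on with
    | empty => intro _; simp
    | @insert F B _ _ ih =>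
      intro hs
      have hF := a3 F (hs (mem_insert _ _))
      have hB := ih ((subset_insert _ _).trans hs)
      rw [sUnion_insert]
      refine ⟨(poly_closed hF.1).union hB.1, ContinuousOn.union_of_isClosed ?_ hB.2
        (poly_closed hF.1) hB.1⟩
      refine LipschitzOnWith.continuousOn (K := 1) (LipschitzOnWith.of_dist_le_mul ?_)
      intro x hx y hy
      simp [hF.2 x hx y hy]
  exact (key A a1 subset_rfl).2

/-- a window of the band -/
def Bd (u v : ℝ) : Set ℂ := {z | z.re ∈ Icc (0 : ℝ) 1 ∧ z.im ∈ Icc u v}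

/-- a folded state of the whole band on the surface of the cube -/
structure Good (s : ℝ) (f : ℂ → E3) : Prop where
  pw : ∀ u v, PW f (Bd u v)
  xi : ∀ a, ∀ b ∈ Icc (0 : ℝ) 1, ∀ b' ∈ Icc (0 : ℝ) 1, f ⟨b, a⟩ = f ⟨b', a⟩ → b = b'
  rg : ∀ a, ∀ b ∈ Icc (0 : ℝ) 1, f ⟨b, a⟩ ∈ Surf s

theorem Good.shift {s : ℝ} {f : ℂ → E3} (h : Good s f) (t : ℝ) :
    Good s fun z => f ⟨z.re, z.im + t⟩ := by
  refine ⟨fun u v => ?_, fun a => h.xi (a + t), fun a => h.rg (a + t)⟩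
  have := (h.pw (u + t) (v + t)).mv (ε := 1) (by norm_num) ⟨0, t⟩
  convert this using 1
  · ext1 z; simp [mv]
  · ext z; simp [mv, Bd]

theorem Good.cut {s : ℝ} {f : ℂ → E3} (h : Good s f) (c t : ℝ)
    (he : ∀ b ∈ Icc (0 : ℝ) 1, f ⟨b, c⟩ = f ⟨b, c + t⟩) :
    Good s fun z => if z.im ≤ c then f z else f ⟨z.re, z.im + t⟩ := by
  have h2 := h.shift t
  refine ⟨fun u v => ?_, fun a b hb b' hb' => ?_, fun a b hb => ?_⟩
  · have e : Bd u v = Bd u v ∩ {z | z.im ≤ c} ∪ Bd u v ∩ {z | c ≤ z.im} := by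
      rw [← inter_union_distrib_left]
      exact (inter_eq_left.2 fun z _ => le_total z.im c).symm
    rw [e]
    refine PW.union (((h.pw u v).inter (poly_half 0 1 c (fun z => z.im) (fun _ => c) fun z => by ring)).congr ?_)
      (((h2.pw u v).inter (poly_half 0 (-1) (-c) (fun _ => c) (fun z => z.im) fun z => by ring)).congr ?_)
    · intro p hp q hq
      simp only [if_pos (show p.im ≤ c from hp.2), if_pos (show q.im ≤ c from hq.2)]
    · have k : ∀ p ∈ Bd u v ∩ {z : ℂ | c ≤ z.im},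
          (if p.im ≤ c then f p else f ⟨p.re, p.im + t⟩) = f ⟨p.re, p.im + t⟩ := by
        intro p hp
        split_ifs with hc
        · have : p.im = c := le_antisymm hc hp.2
          rw [this, ← he _ hp.1.1, ← this]
        · rfl
      intro p hp q hq
      simp only [k p hp, k q hq]
  · by_cases hc : a ≤ c
    · simp only [if_pos hc]; exact h.xi a b hb b' hb'
    · simp only [if_neg hc]; exact h2.xi a b hb b' hb'
  · by_cases hc : a ≤ c
    · simp only [if_pos hc]; exact h.rg a b hb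
    · simp only [if_neg hc]; exact h2.rg a b hb

theorem skip {ι : Type} (s u : ℝ) (c d : ι → ℝ) (I : Finset ι) : ∀ (v : ℝ) (f : ℂ → E3),
    Good s f → (∀ i ∈ I, u ≤ c i ∧ c i ≤ d i ∧ d i ≤ v) →
    (∀ i ∈ I, ∀ j ∈ I, i ≠ j → c j ≤ c i → d j ≤ c i) →
    (∀ i ∈ I, ∀ b ∈ Icc (0 : ℝ) 1, f ⟨b, c i⟩ = f ⟨b, d i⟩) →
    ∃ g : ℂ → E3, Good s g ∧ ∀ z ∈ Bd u v, (∀ i ∈ I, z.im ≤ c i ∨ d i ≤ z.im) →
      ∃ w ∈ Bd u (v - ∑ i ∈ I, (d i - c i)), g w = f z := by
  classical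
  induction I using Finset.induction_on_max_value c with
  | empty => intro v f h _ _ _; exact ⟨f, h, fun z hz _ => ⟨z, by simpa using hz, rfl⟩⟩
  | insert a I ha hm ih =>
    intro v f h h1 h2 h3
    have ma := Finset.mem_insert_self a I
    have k : ∀ j ∈ I, d j ≤ c a := fun j hj =>
      h2 a ma j (Finset.mem_insert_of_mem hj) (fun e => ha (e ▸ hj)) (hm j hj)
    obtain ⟨a1, a2, a3⟩ := h1 a ma
    have he : ∀ b ∈ Icc (0 : ℝ) 1, f ⟨b, c a⟩ = f ⟨b, c a + (d a - c a)⟩ := fun b hb => by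
      rw [h3 a ma b hb]; congr 2; ring
    obtain ⟨g, hg, hc⟩ := ih (v - (d a - c a)) _ (h.cut (c a) (d a - c a) he)
      (fun i hi => ⟨(h1 i (Finset.mem_insert_of_mem hi)).1,
        (h1 i (Finset.mem_insert_of_mem hi)).2.1, by linarith [k i hi]⟩)
      (fun i hi j hj => h2 i (Finset.mem_insert_of_mem hi) j (Finset.mem_insert_of_mem hj))
      (fun i hi b hb => by
        simp only [if_pos (hm i hi), if_pos (k i hi)]
        exact h3 i (Finset.mem_insert_of_mem hi) b hb)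
    refine ⟨g, hg, fun z hz ho => ?_⟩
    rw [Finset.sum_insert ha, ← sub_sub]
    rcases ho a ma with h4 | h4
    · obtain ⟨w, hw, e⟩ := hc z ⟨hz.1, hz.2.1, by linarith⟩
        fun i hi => ho i (Finset.mem_insert_of_mem hi)
      exact ⟨w, hw, by rw [e, if_pos h4]⟩
    · obtain ⟨w, hw, e⟩ := hc ⟨z.re, z.im - (d a - c a)⟩
        ⟨hz.1, by dsimp only; linarith, by dsimp only; linarith [hz.2.2]⟩
        fun i hi => Or.inr (by dsimp only; linarith [k i hi])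
      refine ⟨w, hw, ?_⟩
      rw [e]
      dsimp only
      split_ifs with h5
      · have e1 : z.im - (d a - c a) = c a := by linarith
        have e2 : z.im = d a := by linarith
        rw [e1, h3 a ma _ hz.1, ← e2]
      · congr 1
        apply Complex.ext <;> simp

theorem Good.folds {s u v r : ℝ} {f : ℂ → E3} (h : Good s f) (hr : v - u ≤ r)
    (hc : ∀ y ∈ Surf s, ∃ w ∈ Bd u v, f w = y) : Ex.Folds 1 r s := by
  have h2 := h.shift u
  obtain ⟨A, a1, a2, a3⟩ := h2.pw 0 r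
  refine ⟨_, Complex.im, A, a1, a2, a3, ?_, (h2.pw 0 r).cont, by fun_prop, ?_⟩
  · apply Subset.antisymm
    · rintro _ ⟨z, hz, rfl⟩
      exact h2.rg z.im z.re hz.1
    · intro y hy
      obtain ⟨w, hw, rfl⟩ := hc y hy
      refine ⟨⟨w.re, w.im - u⟩, ⟨hw.1, ?_, ?_⟩, ?_⟩
      · dsimp only; linarith [hw.2.1]
      · dsimp only; linarith [hw.2.2]
      · simp
  · intro z hz w hw e
    simp only [Prod.mk.injEq] at e
    refine Complex.ext (h2.xi z.im z.re hz.1 w.re hw.1 ?_) e.2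
    have := e.1
    rw [← e.2] at this
    exact this

/-- a continuous function that agrees at each point with one of finitely many increasing affine
functions is increasing -/
theorem lt_of_select (φ : ℝ → ℝ) (L : List (ℝ × ℝ)) (hL : ∀ r ∈ L, 0 < r.1) {s t : ℝ}
    (hst : s < t) (hc : ContinuousOn φ (Icc s t))
    (h : ∀ x ∈ Icc s t, ∃ r ∈ L, φ x = r.1 * x + r.2) : φ s < φ t := by
  have step : ∀ x ∈ Ico s t, ∃ y ∈ Ioc x t, φ x < φ y := by
    intro x hx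
    have h1 : x ∈ closure (Ioc x t) := by
      rw [closure_Ioc hx.2.ne]; exact left_mem_Icc.2 hx.2.le
    have h2 : Ioc x t ⊆ ⋃ r ∈ {r | r ∈ L}, {y ∈ Ioc x t | φ y = r.1 * y + r.2} := by
      intro y hy
      obtain ⟨r, hr, e⟩ := h y ⟨hx.1.trans hy.1.le, hy.2⟩
      exact mem_biUnion hr ⟨hy, e⟩
    have h3 := closure_mono h2 h1
    rw [(List.finite_toSet L).closure_biUnion] at h3
    obtain ⟨r, hr, h4⟩ := mem_iUnion₂.1 h3
    obtain ⟨y, hy, e⟩ := closure_nonempty_iff.1 ⟨x, h4⟩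
    refine ⟨y, hy, ?_⟩
    have h5 : IsClosed (Icc s t ∩ (fun y => φ y - (r.1 * y + r.2)) ⁻¹' {0}) :=
      ContinuousOn.preimage_isClosed_of_isClosed (hc.sub (by fun_prop)) isClosed_Icc
        isClosed_singleton
    have h6 := (h5.closure_subset_iff.2 (fun y hy => ⟨⟨hx.1.trans hy.1.1.le, hy.1.2⟩,
      sub_eq_zero.2 hy.2⟩) h4).2
    have h7 : φ x = r.1 * x + r.2 := sub_eq_zero.1 h6
    rw [h7, e]
    have := mul_lt_mul_of_pos_left hy.1 (hL r hr)
    linarith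
  obtain ⟨y, hy, h1⟩ := step s ⟨le_rfl, hst⟩
  have h2 : t ∈ {u | φ y ≤ φ u} := by
    refine IsClosed.mem_of_ge_of_forall_exists_gt (a := y) ?_ (le_refl (φ y)) hy.2 ?_
    · rw [inter_comm]
      exact ContinuousOn.preimage_isClosed_of_isClosed (hc.mono (Icc_subset_Icc_left hy.1.le))
        isClosed_Icc isClosed_Ici
    · intro x hx
      obtain ⟨z, hz, h3⟩ := step x ⟨hy.1.le.trans hx.2.1, hx.2.2⟩
      exact ⟨z, le_trans hx.1 h3.le, hz⟩
  exact h1.trans_le h2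

end Pool.Agent.P.MP_dba4bb_co.Pw
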