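import Pool.Agent.P.MP_dba4bb_co.Pw.A

/-! The folding of a half-plane near one of the centres. -/

namespace Pool.Agent.P.MP_dba4bb_co.Pw

open Set

abbrev T3 : Type := ℝ × ℝ × ℝ

/-- half the side of the cube -/
noncomputable def cc (p q : ℝ) : ℝ := (p ^ 2 + q ^ 2) / 4

def UU (p q a b : ℝ) : ℝ := p * a - q * b

def WW (p q a b : ℝ) : ℝ := q * a + p * b

def cl (c t : ℝ) : ℝ := max (-c) (min t c)

def mx (c t : ℝ) : ℝ := max (|t| - c) 0

/-- the map of the plane around a centre -/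
def pi0 (c u w : ℝ) : T3 := (mx c u, mx c w, |cl c u - cl c w|)

section
variable {c t u w : ℝ}

theorem cl_lo (hc : 0 ≤ c) (h : t ≤ -c) : cl c t = -c := by
  rw [cl, min_eq_left (by linarith), max_eq_left h]

theorem cl_mid (h1 : -c ≤ t) (h2 : t ≤ c) : cl c t = t := by
  rw [cl, min_eq_left h2, max_eq_right h1]

theorem cl_hi (hc : 0 ≤ c) (h : c ≤ t) : cl c t = c := by
  rw [cl, min_eq_right h, max_eq_right (by linarith)]

theorem mx_lo (hc : 0 ≤ c) (h : t ≤ -c) : mx c t = -t - c := by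
  rw [mx, abs_of_nonpos (by linarith), max_eq_left (by linarith)]

theorem mx_mid (h1 : -c ≤ t) (h2 : t ≤ c) : mx c t = 0 := by
  rw [mx, max_eq_right (by linarith [abs_le.2 ⟨h1, h2⟩])]

theorem mx_hi (hc : 0 ≤ c) (h : c ≤ t) : mx c t = t - c := by
  rw [mx, abs_of_nonneg (by linarith), max_eq_left (by linarith)]

theorem cl_bd (hc : 0 ≤ c) (t : ℝ) : -c ≤ cl c t ∧ cl c t ≤ c :=
  ⟨le_max_left _ _, max_le (by linarith) (min_le_right _ _)⟩

theorem cl_neg (hc : 0 ≤ c) (t : ℝ) : cl c (-t) = -cl c t := by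
  rcases le_total t (-c) with h | h
  · rw [cl_lo hc h, cl_hi hc (by linarith), neg_neg]
  rcases le_total t c with h' | h'
  · rw [cl_mid h h', cl_mid (by linarith) (by linarith)]
  · rw [cl_hi hc h', cl_lo hc (by linarith)]

theorem pi_neg (hc : 0 ≤ c) (u w : ℝ) : pi0 c (-u) (-w) = pi0 c u w := by
  simp only [pi0, mx, abs_neg, cl_neg hc]
  rw [show -cl c u - -cl c w = -(cl c u - cl c w) by ring, abs_neg]

theorem pi_SW (hc : 0 ≤ c) (h1 : u ≤ -c) (h2 : w ≤ -c) : pi0 c u w = (-u - c, -w - c, 0) := by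
  simp [pi0, cl_lo hc h1, cl_lo hc h2, mx_lo hc h1, mx_lo hc h2]

theorem pi_W (hc : 0 ≤ c) (h1 : u ≤ -c) (h2 : -c ≤ w) (h3 : w ≤ c) :
    pi0 c u w = (-u - c, 0, w + c) := by
  rw [pi0, cl_lo hc h1, cl_mid h2 h3, mx_lo hc h1, mx_mid h2 h3, abs_of_nonpos (by linarith)]
  congr 2; ring

theorem pi_NW (hc : 0 ≤ c) (h1 : u ≤ -c) (h2 : c ≤ w) : pi0 c u w = (-u - c, w - c, 2 * c) := by
  rw [pi0, cl_lo hc h1, cl_hi hc h2, mx_lo hc h1, mx_hi hc h2, abs_of_nonpos (by linarith)]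
  congr 2; ring

theorem pi_N (hc : 0 ≤ c) (h1 : -c ≤ u) (h2 : u ≤ c) (h3 : c ≤ w) :
    pi0 c u w = (0, w - c, c - u) := by
  rw [pi0, cl_mid h1 h2, cl_hi hc h3, mx_mid h1 h2, mx_hi hc h3, abs_of_nonpos (by linarith)]
  congr 2; ring

theorem pi_NE (hc : 0 ≤ c) (h1 : c ≤ u) (h2 : c ≤ w) : pi0 c u w = (u - c, w - c, 0) := by
  simp [pi0, cl_hi hc h1, cl_hi hc h2, mx_hi hc h1, mx_hi hc h2]

theorem pi_S (hc : 0 ≤ c) (h1 : -c ≤ u) (h2 : u ≤ c) (h3 : w ≤ -c) :
    pi0 c u w = (0, -w - c, u + c) := by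
  rw [pi0, cl_mid h1 h2, cl_lo hc h3, mx_mid h1 h2, mx_lo hc h3, abs_of_nonneg (by linarith)]
  congr 2; ring

end

open Classical in
/-- the folding of the half-plane `0 ≤ b` -/
noncomputable def gg (p q a b : ℝ) : T3 :=
  if (q - p) / 4 ≤ a ∧ a + b ≤ q / 2 then
    (0, UU p q ((q - p) / 2 - a) b + cc p q, WW p q ((q - p) / 2 - a) b + cc p q)
  else if a ≤ (q - p) / 4 ∧ -p / 2 ≤ a + b ∧ -cc p q ≤ UU p q a b then
    (0, UU p q a b + cc p q, WW p q a b + cc p q)
  else if -(p + q) / 4 ≤ a ∧ a + b ≤ -p / 2 then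
    (0, -WW p q (-(p + q) / 2 - a) b - cc p q, UU p q (-(p + q) / 2 - a) b + cc p q)
  else pi0 (cc p q) (UU p q a b) (WW p q a b)

variable {p q a b : ℝ}

theorem cc_nn (p q : ℝ) : 0 ≤ cc p q := by unfold cc; positivity

theorem g_f (h1 : (q - p) / 4 ≤ a) (h2 : a + b ≤ q / 2) : gg p q a b =
    (0, UU p q ((q - p) / 2 - a) b + cc p q, WW p q ((q - p) / 2 - a) b + cc p q) := by
  rw [gg, if_pos ⟨h1, h2⟩]

theorem g_e (h1 : a ≤ (q - p) / 4) (h2 : -p / 2 ≤ a + b) (h3 : -cc p q ≤ UU p q a b) :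
    gg p q a b = (0, UU p q a b + cc p q, WW p q a b + cc p q) := by
  by_cases h : (q - p) / 4 ≤ a ∧ a + b ≤ q / 2
  · rw [g_f h.1 h.2, show (q - p) / 2 - a = a by linarith [h.1]]
  · rw [gg, if_neg h, if_pos ⟨h1, h2, h3⟩]

theorem g_d (hp : 0 < p) (hq : p < q) (hb : 0 ≤ b) (h1 : -(p + q) / 4 ≤ a)
    (h2 : a + b ≤ -p / 2) : gg p q a b =
    (0, -WW p q (-(p + q) / 2 - a) b - cc p q, UU p q (-(p + q) / 2 - a) b + cc p q) := by
  by_cases h : a ≤ (q - p) / 4 ∧ -p / 2 ≤ a + b ∧ -cc p q ≤ UU p q a b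
  · rw [g_e h.1 h.2.1 h.2.2, show b = -p / 2 - a by linarith [h.2.1]]
    simp only [UU, WW, cc, Prod.mk.injEq, true_and]
    constructor <;> ring
  · rw [gg, if_neg (fun h' => by linarith [h'.1]), if_neg h, if_pos ⟨h1, h2⟩]

theorem g_left (hp : 0 < p) (hq : p < q) (hb : 0 ≤ b) (h : UU p q a b ≤ -cc p q) :
    gg p q a b = pi0 (cc p q) (UU p q a b) (WW p q a b) := by
  have hc := cc_nn p q
  have he : a ≤ (q - p) / 4 → -p / 2 ≤ a + b → -cc p q ≤ UU p q a b →
      gg p q a b = pi0 (cc p q) (UU p q a b) (WW p q a b) := by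
    intro h1 h2 h3
    have e : UU p q a b = -cc p q := le_antisymm h h3
    have e' : p * a - q * b = -((p ^ 2 + q ^ 2) / 4) := e
    have k1 : -cc p q ≤ WW p q a b := by
      have : 0 ≤ (p + q) * (WW p q a b + cc p q) := by
        have : (p + q) * (WW p q a b + cc p q) = (p ^ 2 + q ^ 2) * (a + b + p / 2) := by
          unfold WW cc; linear_combination (q - p) * e'
        rw [this]; exact mul_nonneg (by positivity) (by linarith)
      linarith [(mul_nonneg_iff_of_pos_left (show 0 < p + q by linarith)).1 this]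
    have k2 : WW p q a b ≤ cc p q := by
      have : 0 ≤ q * (cc p q - WW p q a b) := by
        have : q * (cc p q - WW p q a b) = (p ^ 2 + q ^ 2) * ((q - p) / 4 - a) := by
          unfold WW cc; linear_combination p * e'
        rw [this]; exact mul_nonneg (by positivity) (by linarith)
      linarith [(mul_nonneg_iff_of_pos_left (show 0 < q by linarith)).1 this]
    rw [g_e h1 h2 h3, pi_W hc h k1 k2, e]
    simp
  by_cases h1 : (q - p) / 4 ≤ a ∧ a + b ≤ q / 2
  · have h' : p * a - q * b ≤ -((p ^ 2 + q ^ 2) / 4) := h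
    have k : a ≤ (q - p) / 4 := by nlinarith [h1.1, h1.2]
    refine he k (by linarith [h1.1]) ?_
    unfold UU cc; nlinarith [h1.1, h1.2]
  by_cases h2 : a ≤ (q - p) / 4 ∧ -p / 2 ≤ a + b ∧ -cc p q ≤ UU p q a b
  · exact he h2.1 h2.2.1 h2.2.2
  by_cases h3 : -(p + q) / 4 ≤ a ∧ a + b ≤ -p / 2
  · have h' : p * a - q * b ≤ -((p ^ 2 + q ^ 2) / 4) := h
    refine he (by linarith [h3.2]) (by nlinarith [h3.1, h3.2]) ?_
    unfold UU cc; nlinarith [h3.1, h3.2]
  · rw [gg, if_neg h1, if_neg h2, if_neg h3]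

theorem north (hp : 0 < p) (hq : p < q) (h1 : q / 2 ≤ a + b) (h2 : -cc p q ≤ UU p q a b) :
    cc p q ≤ WW p q a b := by
  have : 0 ≤ (p + q) * (WW p q a b - cc p q) := by
    have : (p + q) * (WW p q a b - cc p q)
        = (p ^ 2 + q ^ 2) * (a + b - q / 2) + (q - p) * (UU p q a b + cc p q) := by
      unfold UU WW cc; ring
    rw [this]
    exact add_nonneg (mul_nonneg (by positivity) (by linarith)) (mul_nonneg (by linarith) (by linarith))
  linarith [(mul_nonneg_iff_of_pos_left (show 0 < p + q by linarith)).1 this]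

theorem south (hp : 0 < p) (hq : p < q) (h1 : a ≤ -(p + q) / 4) (h2 : -cc p q ≤ UU p q a b) :
    WW p q a b ≤ -cc p q := by
  have : 0 ≤ q * (-cc p q - WW p q a b) := by
    have : q * (-cc p q - WW p q a b)
        = (p ^ 2 + q ^ 2) * (-(p + q) / 4 - a) + p * (UU p q a b + cc p q) := by
      unfold UU WW cc; ring
    rw [this]
    exact add_nonneg (mul_nonneg (by positivity) (by linarith)) (mul_nonneg hp.le (by linarith))
  linarith [(mul_nonneg_iff_of_pos_left (show 0 < q by linarith)).1 this]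

theorem U_le (hp : 0 < p) (hq : p < q) (hb : 0 ≤ b) (h : a ≤ q / 2) : UU p q a b ≤ cc p q := by
  unfold UU cc; nlinarith [sq_nonneg (p - q), mul_nonneg (hp.trans hq).le hb]

theorem g_right (hp : 0 < p) (hq : p < q) (hb : 0 ≤ b) (h : q / 2 ≤ a + b) :
    gg p q a b = pi0 (cc p q) (UU p q a b) (WW p q a b) := by
  rcases le_total (UU p q a b) (-cc p q) with h0 | h0
  · exact g_left hp hq hb h0
  by_cases h1 : (q - p) / 4 ≤ a ∧ a + b ≤ q / 2
  · rw [g_f h1.1 h1.2, pi_N (cc_nn p q) h0 (U_le hp hq hb (by linarith [h1.2])) (north hp hq h h0),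
      show b = q / 2 - a by linarith [h1.2]]
    simp only [UU, WW, cc, Prod.mk.injEq, true_and]
    constructor <;> ring
  by_cases h2 : a ≤ (q - p) / 4 ∧ -p / 2 ≤ a + b ∧ -cc p q ≤ UU p q a b
  · refine g_left hp hq hb ?_
    unfold UU cc; nlinarith [h2.1]
  · rw [gg, if_neg h1, if_neg h2, if_neg (fun h' => by linarith [h'.2])]

theorem g_low (hp : 0 < p) (hq : p < q) (hb : 0 ≤ b) (h : a ≤ -(p + q) / 4) :
    gg p q a b = pi0 (cc p q) (UU p q a b) (WW p q a b) := by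
  rcases le_total (UU p q a b) (-cc p q) with h0 | h0
  · exact g_left hp hq hb h0
  by_cases h2 : a ≤ (q - p) / 4 ∧ -p / 2 ≤ a + b ∧ -cc p q ≤ UU p q a b
  · refine g_left hp hq hb ?_
    unfold UU cc; nlinarith [h2.2.1]
  by_cases h3 : -(p + q) / 4 ≤ a ∧ a + b ≤ -p / 2
  · rw [g_d hp hq hb h3.1 h3.2, pi_S (cc_nn p q) h0 (U_le hp hq hb (by linarith)) (south hp hq h h0),
      show -(p + q) / 2 - a = a by linarith [h3.1]]
  · rw [gg, if_neg (fun h' => by linarith [h'.1]), if_neg h2, if_neg h3]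

/-- away from the centre the folding is the standard map -/
theorem g_far (hp : 0 < p) (hq : p < q) (hb : 0 ≤ b)
    (h : q ^ 2 / 2 ≤ |UU p q a b| ∨ q ^ 2 / 2 ≤ |WW p q a b|) :
    gg p q a b = pi0 (cc p q) (UU p q a b) (WW p q a b) := by
  rcases le_or_gt (UU p q a b) (-cc p q) with h0 | h0
  · exact g_left hp hq hb h0
  rcases le_or_gt (q / 2) (a + b) with h1 | h1
  · exact g_right hp hq hb h1
  rcases le_or_gt a (-(p + q) / 4) with h2 | h2
  · exact g_low hp hq hb h2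
  exfalso
  have hq0 := hp.trans hq
  have k1 := U_le hp hq hb (show a ≤ q / 2 by linarith)
  have k2 : cc p q < q ^ 2 / 2 := by unfold cc; nlinarith
  rcases h with h | h
  · linarith [abs_lt.2 ⟨show -(q ^ 2 / 2) < UU p q a b by linarith, k1.trans_lt k2⟩]
  · have : |WW p q a b| < q ^ 2 / 2 := by
      rw [abs_lt]; unfold WW
      constructor <;> nlinarith [mul_nonneg hp.le hb, mul_nonneg (sub_pos.2 hq).le hb]
    linarith

theorem g_big (hp : 0 < p) (hq : p < q) (hb : 0 ≤ b) {t : ℝ} (ht : |t| ≤ (p + q) / 4 - b) :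
    gg p q ((q - p) / 4 - t) b = gg p q ((q - p) / 4 + t) b := by
  wlog h : 0 ≤ t generalizing t
  · have := this (t := -t) (by rwa [abs_neg]) (by linarith)
    rw [sub_neg_eq_add, ← sub_eq_add_neg] at this
    exact this.symm
  rw [abs_of_nonneg h] at ht
  rw [g_e (by linarith) (by linarith) (by unfold UU cc; nlinarith), g_f (by linarith) (by linarith),
    show (q - p) / 2 - ((q - p) / 4 + t) = (q - p) / 4 - t by ring]

theorem g_small (hp : 0 < p) (hq : p < q) (hb : 0 ≤ b) {t : ℝ} (ht : |t| ≤ (q - p) / 4 - b) :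
    gg p q (-(p + q) / 4 - t) b = gg p q (-(p + q) / 4 + t) b := by
  wlog h : 0 ≤ t generalizing t
  · have := this (t := -t) (by rwa [abs_neg]) (by linarith)
    rw [sub_neg_eq_add, ← sub_eq_add_neg] at this
    exact this.symm
  rw [abs_of_nonneg h] at ht
  have h0 : -cc p q ≤ UU p q (-(p + q) / 4 - t) b := by unfold UU cc; nlinarith
  rw [g_low hp hq hb (by linarith), pi_S (cc_nn p q) h0 (U_le hp hq hb (by linarith))
    (south hp hq (by linarith) h0), g_d hp hq hb (by linarith) (by linarith),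
    show -(p + q) / 2 - (-(p + q) / 4 + t) = -(p + q) / 4 - t by ring]

end Pool.Agent.P.MP_dba4bb_co.Pw
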