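import Pool.Agent.P.MP_dba4bb_co.Pw.B

/-! The folding of the half-plane: isometric pieces, cross sections, range. -/

namespace Pool.Agent.P.MP_dba4bb_co.Pw

open Set

noncomputable def emb (k : ℝ) (x : T3) : E3 := !₂[k * x.1, k * x.2.1, k * x.2.2]

def QQ (x y : T3) : ℝ := (x.1 - y.1) ^ 2 + (x.2.1 - y.2.1) ^ 2 + (x.2.2 - y.2.2) ^ 2

theorem dist_emb (k : ℝ) (x y : T3) : dist (emb k x) (emb k y) = √(k ^ 2 * QQ x y) := by
  rw [EuclideanSpace.dist_eq, Fin.sum_univ_three]
  congr 1
  simp only [emb, QQ, Real.dist_eq, sq_abs, Matrix.cons_val_zero, Matrix.cons_val_one,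
    Matrix.cons_val]
  ring

theorem emb_inj {k : ℝ} (hk : 0 < k) {x y : T3} (h : emb k x = emb k y) : x = y := by
  have h0 := congrArg (fun v : E3 => v 0) h
  have h1 := congrArg (fun v : E3 => v 1) h
  have h2 := congrArg (fun v : E3 => v 2) h
  simp only [emb, Matrix.cons_val_zero, Matrix.cons_val_one, Matrix.cons_val] at h0 h1 h2
  exact Prod.ext (mul_left_cancel₀ hk.ne' h0)
    (Prod.ext (mul_left_cancel₀ hk.ne' h1) (mul_left_cancel₀ hk.ne' h2))

variable {p q k a b : ℝ}

theorem pl_b : Ex.Poly {z : ℂ | 0 ≤ z.re} :=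
  poly_half (-1) 0 0 (fun _ => 0) (fun z => z.re) fun z => by ring
theorem pl_al (t : ℝ) : Ex.Poly {z : ℂ | z.im ≤ t} :=
  poly_half 0 1 t (fun z => z.im) (fun _ => t) fun z => by ring
theorem pl_ag (t : ℝ) : Ex.Poly {z : ℂ | t ≤ z.im} :=
  poly_half 0 (-1) (-t) (fun _ => t) (fun z => z.im) fun z => by ring
theorem pl_sl (t : ℝ) : Ex.Poly {z : ℂ | z.im + z.re ≤ t} :=
  poly_half 1 1 t (fun z => z.im + z.re) (fun _ => t) fun z => by ring
theorem pl_sg (t : ℝ) : Ex.Poly {z : ℂ | t ≤ z.im + z.re} :=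
  poly_half (-1) (-1) (-t) (fun _ => t) (fun z => z.im + z.re) fun z => by ring
theorem pl_Ul (p q t : ℝ) : Ex.Poly {z : ℂ | UU p q z.im z.re ≤ t} :=
  poly_half (-q) p t (fun z => UU p q z.im z.re) (fun _ => t) fun z => by unfold UU; ring
theorem pl_Ug (p q t : ℝ) : Ex.Poly {z : ℂ | t ≤ UU p q z.im z.re} :=
  poly_half q (-p) (-t) (fun _ => t) (fun z => UU p q z.im z.re) fun z => by unfold UU; ring
theorem pl_Wl (p q t : ℝ) : Ex.Poly {z : ℂ | WW p q z.im z.re ≤ t} :=
  poly_half p q t (fun z => WW p q z.im z.re) (fun _ => t) fun z => by unfold WW; ring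
theorem pl_Wg (p q t : ℝ) : Ex.Poly {z : ℂ | t ≤ WW p q z.im z.re} :=
  poly_half (-p) (-q) (-t) (fun _ => t) (fun z => WW p q z.im z.re) fun z => by unfold WW; ring

theorem pw_piece (hk : k ^ 2 * (p ^ 2 + q ^ 2) = 1) {S : Set ℂ} (hS : Ex.Poly S) (F : ℂ → T3)
    (h : ∀ z ∈ S, gg p q z.im z.re = F z)
    (hQ : ∀ z w, QQ (F z) (F w) = (p ^ 2 + q ^ 2) * ((z.re - w.re) ^ 2 + (z.im - w.im) ^ 2)) :
    PW (fun z => emb k (gg p q z.im z.re)) S := by
  refine PW.one hS fun z hz w hw => ?_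
  rw [h z hz, h w hw, dist_emb, hQ, ← mul_assoc, hk, one_mul, Complex.dist_eq_re_im]

theorem east (hp : 0 < p) (hq : p < q) (hb : 0 ≤ b) (h : cc p q ≤ UU p q a b) :
    q / 2 ≤ a + b ∧ cc p q ≤ WW p q a b := by
  have h1 : q / 2 ≤ a + b := by
    by_contra h'
    have : p * a < p * (q / 2) := mul_lt_mul_of_pos_left (by linarith) hp
    unfold UU cc at h
    nlinarith [sq_nonneg (p - q), mul_nonneg (hp.trans hq).le hb]
  exact ⟨h1, north hp hq h1 (by linarith [cc_nn p q])⟩

theorem pw_half (hp : 0 < p) (hq : p < q) (hk : k ^ 2 * (p ^ 2 + q ^ 2) = 1) :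
    PW (fun z => emb k (gg p q z.im z.re)) {z | 0 ≤ z.re} := by
  have hc := cc_nn p q
  have A1 := pw_piece hk (poly_inter pl_b (poly_inter (pl_ag ((q - p) / 4)) (pl_sl (q / 2))))
    _ (fun z hz => g_f hz.2.1 hz.2.2) (fun z w => by simp only [QQ, UU, WW]; ring)
  have A2 := pw_piece hk (poly_inter pl_b (poly_inter (pl_al ((q - p) / 4))
    (poly_inter (pl_sg (-p / 2)) (pl_Ug p q (-cc p q)))))
    _ (fun z hz => g_e hz.2.1 hz.2.2.1 hz.2.2.2) (fun z w => by simp only [QQ, UU, WW]; ring)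
  have A3 := pw_piece hk (poly_inter pl_b (poly_inter (pl_ag (-(p + q) / 4)) (pl_sl (-p / 2))))
    _ (fun z hz => g_d hp hq hz.1 hz.2.1 hz.2.2) (fun z w => by simp only [QQ, UU, WW]; ring)
  have A4 := pw_piece hk (poly_inter pl_b (poly_inter (pl_Ul p q (-cc p q)) (pl_Wl p q (-cc p q))))
    _ (fun z hz => (g_left hp hq hz.1 hz.2.1).trans (pi_SW hc hz.2.1 hz.2.2))
    (fun z w => by simp only [QQ, UU, WW]; ring)
  have A5 := pw_piece hk (poly_inter pl_b (poly_inter (pl_Ul p q (-cc p q))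
    (poly_inter (pl_Wg p q (-cc p q)) (pl_Wl p q (cc p q)))))
    _ (fun z hz => (g_left hp hq hz.1 hz.2.1).trans (pi_W hc hz.2.1 hz.2.2.1 hz.2.2.2))
    (fun z w => by simp only [QQ, UU, WW]; ring)
  have A6 := pw_piece hk (poly_inter pl_b (poly_inter (pl_Ul p q (-cc p q)) (pl_Wg p q (cc p q))))
    _ (fun z hz => (g_left hp hq hz.1 hz.2.1).trans (pi_NW hc hz.2.1 hz.2.2))
    (fun z w => by simp only [QQ, UU, WW]; ring)
  have A7 := pw_piece hk (poly_inter pl_b (poly_inter (pl_sg (q / 2))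
    (poly_inter (pl_Ug p q (-cc p q)) (pl_Ul p q (cc p q)))))
    _ (fun z hz => (g_right hp hq hz.1 hz.2.1).trans
      (pi_N hc hz.2.2.1 hz.2.2.2 (north hp hq hz.2.1 hz.2.2.1)))
    (fun z w => by simp only [QQ, UU, WW]; ring)
  have A8 := pw_piece hk (poly_inter pl_b (pl_Ug p q (cc p q)))
    _ (fun z hz => (g_right hp hq hz.1 (east hp hq hz.1 hz.2).1).trans
      (pi_NE hc hz.2 (east hp hq hz.1 hz.2).2))
    (fun z w => by simp only [QQ, UU, WW]; ring)
  have A9 := pw_piece hk (poly_inter pl_b (poly_inter (pl_al (-(p + q) / 4)) (pl_Ug p q (-cc p q))))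
    _ (fun z hz => (g_low hp hq hz.1 hz.2.1).trans (pi_S hc hz.2.2
      (U_le hp hq hz.1 (by linarith [show z.im ≤ -(p + q) / 4 from hz.2.1]))
      (south hp hq hz.2.1 hz.2.2)))
    (fun z w => by simp only [QQ, UU, WW]; ring)
  convert (((A1.union A2).union A3).union ((A4.union A5).union A6)).union ((A7.union A8).union A9)
    using 1
  ext z
  simp only [mem_union, mem_inter_iff, mem_ofPred_eq]
  refine ⟨fun hb => ?_, fun h => by tauto⟩
  rcases le_total (UU p q z.im z.re) (-cc p q) with h0 | h0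
  · rcases le_total (WW p q z.im z.re) (-cc p q) with h1 | h1
    · tauto
    · rcases le_total (WW p q z.im z.re) (cc p q) with h2 | h2 <;> tauto
  rcases le_total (q / 2) (z.im + z.re) with h1 | h1
  · rcases le_total (UU p q z.im z.re) (cc p q) with h2 | h2 <;> tauto
  rcases le_total ((q - p) / 4) z.im with h2 | h2
  · tauto
  rcases le_total (-p / 2) (z.im + z.re) with h3 | h3
  · tauto
  rcases le_total (-(p + q) / 4) z.im with h4 | h4 <;> tauto

theorem g_cont (hp : 0 < p) (hq : p < q) (hk0 : 0 < k) (hk : k ^ 2 * (p ^ 2 + q ^ 2) = 1) (a : ℝ) :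
    ContinuousOn (gg p q a) (Ici 0) := by
  have h1 : ContinuousOn (fun t : ℝ => emb k (gg p q a t)) (Ici 0) := by
    have e : Continuous fun t : ℝ => (⟨t, a⟩ : ℂ) := by
      have : (fun t : ℝ => (⟨t, a⟩ : ℂ)) = fun t : ℝ => (t : ℂ) + a * Complex.I := by
        ext1 t; apply Complex.ext <;> simp
      rw [this]; fun_prop
    exact (pw_half hp hq hk).cont.comp e.continuousOn fun t ht => ht
  have h2 : Continuous fun v : E3 => ((v 0 / k, v 1 / k, v 2 / k) : T3) := by fun_prop
  refine (h2.comp_continuousOn h1).congr fun t _ => ?_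
  simp only [Function.comp, emb, Matrix.cons_val_zero, Matrix.cons_val_one, Matrix.cons_val]
  simp [hk0.ne']

theorem g_inj (hp : 0 < p) (hq : p < q) (hk0 : 0 < k) (hk : k ^ 2 * (p ^ 2 + q ^ 2) = 1)
    {b b' : ℝ} (hb : 0 ≤ b) (hb' : 0 ≤ b') (h : gg p q a b = gg p q a b') : b = b' := by
  wlog hl : b < b' generalizing b b'
  · rcases (not_lt.1 hl).eq_or_lt with e | e
    · exact e.symm
    · exact (this hb' hb h.symm e).symm
  exfalso
  have hc := cc_nn p q
  have hq0 := hp.trans hq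
  have ct := (g_cont hp hq hk0 hk a).mono (show Icc b b' ⊆ Ici 0 from fun t ht => hb.trans ht.1)
  rcases le_total (q / 2) a with h1 | h1
  · have key : ∀ t, 0 ≤ t → (gg p q a t).2.1 = WW p q a t - cc p q := fun t ht => by
      rw [g_right hp hq ht (by linarith)]
      exact mx_hi hc (by unfold WW cc; nlinarith [mul_nonneg hp.le ht])
    have := key b hb
    rw [h, key b' hb'] at this
    unfold WW at this
    nlinarith
  rcases le_total (-p / 2) a with h2 | h2
  · have := lt_of_select (fun t => (gg p q a t).1 + (gg p q a t).2.2)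
      [(p, q * ((q - p) / 2 - a) + cc p q), (p, q * a + cc p q), (q, cc p q - p * a),
        (p + q, q * a - p * a)]
      (by simp only [List.forall_mem_cons]; exact ⟨hp, hp, hq0, by linarith, by simp⟩) hl
      (by fun_prop) ?_
    · simp only [h, lt_self_iff_false] at this
    intro t ht
    have ht0 : 0 ≤ t := hb.trans ht.1
    simp only [List.exists_mem_cons_iff]
    rcases le_total (UU p q a t) (-cc p q) with h3 | h3
    · rw [g_left hp hq ht0 h3]
      rcases le_total (WW p q a t) (cc p q) with h4 | h4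
      · have h5 : -cc p q ≤ WW p q a t := by
          unfold WW cc; nlinarith [mul_nonneg hp.le ht0, sq_nonneg (p - q)]
        rw [pi_W hc h3 h5 h4]
        exact Or.inr (Or.inr (Or.inr (Or.inl (by unfold UU WW; ring))))
      · rw [pi_NW hc h3 h4]
        exact Or.inr (Or.inr (Or.inl (by unfold UU; ring)))
    rcases le_total (q / 2) (a + t) with h4 | h4
    · rw [g_right hp hq ht0 h4, pi_N hc h3 (U_le hp hq ht0 h1) (north hp hq h4 h3)]
      exact Or.inr (Or.inr (Or.inl (by unfold UU; ring)))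
    rcases le_total ((q - p) / 4) a with h5 | h5
    · rw [g_f h5 h4]
      exact Or.inl (by unfold WW; ring)
    · rw [g_e h5 (by linarith) h3]
      exact Or.inr (Or.inl (by unfold WW; ring))
  · have := lt_of_select (fun t => (gg p q a t).1 - (gg p q a t).2.1)
      [(p, q * (-(p + q) / 2 - a) + cc p q), (p, q * a + cc p q), (q, -cc p q - p * a),
        (p + q, q * a - p * a), (q - p, -(p * a) - q * a)]
      (by simp only [List.forall_mem_cons]
          exact ⟨hp, hp, hq0, by linarith, by linarith, by simp⟩) hl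
      (by fun_prop) ?_
    · simp only [h, lt_self_iff_false] at this
    intro t ht
    have ht0 : 0 ≤ t := hb.trans ht.1
    simp only [List.exists_mem_cons_iff]
    rcases le_total (UU p q a t) (-cc p q) with h3 | h3
    · rw [g_left hp hq ht0 h3]
      rcases le_total (WW p q a t) (-cc p q) with h5 | h5
      · rw [pi_SW hc h3 h5]
        exact Or.inr (Or.inr (Or.inr (Or.inl (by unfold UU WW; ring))))
      rcases le_total (WW p q a t) (cc p q) with h4 | h4
      · rw [pi_W hc h3 h5 h4]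
        exact Or.inr (Or.inr (Or.inl (by unfold UU; ring)))
      · rw [pi_NW hc h3 h4]
        exact Or.inr (Or.inr (Or.inr (Or.inr (Or.inl (by unfold UU WW; ring)))))
    rcases le_total a (-(p + q) / 4) with h4 | h4
    · rw [g_low hp hq ht0 h4, pi_S hc h3 (U_le hp hq ht0 h1) (south hp hq h4 h3)]
      exact Or.inr (Or.inl (by unfold WW; ring))
    rcases le_total (a + t) (-p / 2) with h5 | h5
    · rw [g_d hp hq ht0 h4 h5]
      exact Or.inl (by unfold WW; ring)
    · rw [g_e (by linarith) h5 h3]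
      exact Or.inr (Or.inr (Or.inl (by unfold UU; ring)))

end Pool.Agent.P.MP_dba4bb_co.Pw
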