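import Pool.Agent.P.MP_dba4bb_co.Pw.C

/-! Range of the folding of the half-plane, and the symmetries of the cube. -/

namespace Pool.Agent.P.MP_dba4bb_co.Pw

open Set

/-- the surface of the cube of side `2c` -/
def Sf (c : ℝ) (x : T3) : Prop :=
  (0 ≤ x.1 ∧ x.1 ≤ 2 * c) ∧ (0 ≤ x.2.1 ∧ x.2.1 ≤ 2 * c) ∧ (0 ≤ x.2.2 ∧ x.2.2 ≤ 2 * c) ∧
    ((x.1 = 0 ∨ x.1 = 2 * c) ∨ (x.2.1 = 0 ∨ x.2.1 = 2 * c) ∨ (x.2.2 = 0 ∨ x.2.2 = 2 * c))

theorem emb_mem {k c : ℝ} (hk : 0 < k) {x : T3} (h : Sf c x) : emb k x ∈ Surf (k * (2 * c)) := by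
  obtain ⟨h1, h2, h3, h4⟩ := h
  refine ⟨fun i => ?_, ?_⟩
  · fin_cases i
    · exact ⟨mul_nonneg hk.le h1.1, mul_le_mul_of_nonneg_left h1.2 hk.le⟩
    · exact ⟨mul_nonneg hk.le h2.1, mul_le_mul_of_nonneg_left h2.2 hk.le⟩
    · exact ⟨mul_nonneg hk.le h3.1, mul_le_mul_of_nonneg_left h3.2 hk.le⟩
  · rcases h4 with h | h | h
    · exact ⟨0, h.imp (fun e => by simp [emb, e]) fun e => by simp [emb, e]⟩
    · exact ⟨1, h.imp (fun e => by simp [emb, e]) fun e => by simp [emb, e]⟩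
    · exact ⟨2, h.imp (fun e => by simp [emb, e]) fun e => by simp [emb, e]⟩

theorem emb_onto {k c : ℝ} (hk : 0 < k) {y : E3} (h : y ∈ Surf (k * (2 * c))) :
    ∃ x, Sf c x ∧ emb k x = y := by
  have b : ∀ i, 0 ≤ y i / k ∧ y i / k ≤ 2 * c := fun i =>
    ⟨div_nonneg (h.1 i).1 hk.le, (div_le_iff₀' hk).2 (h.1 i).2⟩
  have f : ∀ i, y i = 0 ∨ y i = k * (2 * c) → y i / k = 0 ∨ y i / k = 2 * c := fun i e =>
    e.imp (fun e => by rw [e, zero_div]) fun e => by rw [e, mul_div_cancel_left₀ _ hk.ne']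
  refine ⟨(y 0 / k, y 1 / k, y 2 / k), ⟨b 0, b 1, b 2, ?_⟩, ?_⟩
  · obtain ⟨i, hi⟩ := h.2
    fin_cases i
    · exact Or.inl (f 0 hi)
    · exact Or.inr (Or.inl (f 1 hi))
    · exact Or.inr (Or.inr (f 2 hi))
  · ext i
    fin_cases i <;> simp [emb, mul_div_cancel₀ _ hk.ne']

theorem pi_sf {c u w : ℝ} (hc : 0 ≤ c) (hu : |u| ≤ 3 * c) (hw : |w| ≤ 3 * c) :
    Sf c (pi0 c u w) := by
  have b : ∀ t, |t| ≤ 3 * c → 0 ≤ mx c t ∧ mx c t ≤ 2 * c := fun t ht =>
    ⟨le_max_right _ _, max_le (by linarith) (by linarith)⟩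
  have f : ∀ t, mx c t = 0 ∨ cl c t = -c ∨ cl c t = c := fun t => by
    rcases le_total t (-c) with h | h
    · exact Or.inr (Or.inl (cl_lo hc h))
    rcases le_total t c with h' | h'
    · exact Or.inl (mx_mid h h')
    · exact Or.inr (Or.inr (cl_hi hc h'))
  have b1 := cl_bd hc u
  have b2 := cl_bd hc w
  refine ⟨b u hu, b w hw, ⟨abs_nonneg _, abs_le.2 ⟨by linarith, by linarith⟩⟩, ?_⟩
  rcases f u with h | h
  · exact Or.inl (Or.inl h)
  rcases f w with h' | h'
  · exact Or.inr (Or.inl (Or.inl h'))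
  refine Or.inr (Or.inr ?_)
  show |cl c u - cl c w| = 0 ∨ |cl c u - cl c w| = 2 * c
  rcases h with h | h <;> rcases h' with h' | h' <;> rw [h, h']
  · simp
  · right; rw [abs_of_nonpos (by linarith)]; ring
  · right; rw [abs_of_nonneg (by linarith)]; ring
  · simp

variable {p q a b : ℝ}

theorem e_sf (hp : 0 < p) (hq : p < q) (hb : 0 ≤ b) (h1 : a ≤ (q - p) / 4) (h2 : -p / 2 ≤ a + b)
    (h3 : -cc p q ≤ UU p q a b) : Sf (cc p q) (0, UU p q a b + cc p q, WW p q a b + cc p q) := by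
  have hc := cc_nn p q
  have k0 := U_le hp hq hb (show a ≤ q / 2 by linarith)
  have k1 : 0 ≤ (p + q) * (WW p q a b + cc p q) := by
    have : (p + q) * (WW p q a b + cc p q)
        = (p ^ 2 + q ^ 2) * (a + b + p / 2) + (q - p) * (UU p q a b + cc p q) := by
      unfold UU WW cc; ring
    rw [this]
    exact add_nonneg (mul_nonneg (by positivity) (by linarith)) (mul_nonneg (by linarith) (by linarith))
  have k2 : 0 ≤ q * (cc p q - WW p q a b) := by
    have : q * (cc p q - WW p q a b)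
        = (p ^ 2 + q ^ 2) * ((q - p) / 4 - a) + p * (UU p q a b + cc p q) := by
      unfold UU WW cc; ring
    rw [this]
    exact add_nonneg (mul_nonneg (by positivity) (by linarith)) (mul_nonneg hp.le (by linarith))
  have k3 := (mul_nonneg_iff_of_pos_left (show 0 < p + q by linarith)).1 k1
  have k4 := (mul_nonneg_iff_of_pos_left (show 0 < q by linarith)).1 k2
  exact ⟨⟨le_rfl, by dsimp only; linarith⟩, ⟨by dsimp only; linarith, by dsimp only; linarith⟩,
    ⟨k3, by dsimp only; linarith⟩, Or.inl (Or.inl rfl)⟩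

theorem g_sf (hp : 0 < p) (hq : p < q) (hb : 0 ≤ b) (hu : |UU p q a b| ≤ 3 * cc p q)
    (hw : |WW p q a b| ≤ 3 * cc p q) : Sf (cc p q) (gg p q a b) := by
  have hc := cc_nn p q
  unfold gg
  split_ifs with h1 h2 h3
  · exact e_sf hp hq hb (by linarith [h1.1]) (by linarith [h1.2])
      (by unfold UU cc; nlinarith [h1.1, h1.2])
  · exact e_sf hp hq hb h2.1 h2.2.1 h2.2.2
  · have k0 : -cc p q ≤ UU p q (-(p + q) / 2 - a) b := by unfold UU cc; nlinarith [h3.1, h3.2]
    have k1 := south hp hq (show -(p + q) / 2 - a ≤ -(p + q) / 4 by linarith [h3.1]) k0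
    have k2 := U_le hp hq hb (show -(p + q) / 2 - a ≤ q / 2 by linarith [h3.1])
    have k3 : -(3 * cc p q) ≤ WW p q (-(p + q) / 2 - a) b := by
      unfold WW cc; nlinarith [h3.2, mul_nonneg hp.le hb, mul_nonneg (hp.trans hq).le hb]
    exact ⟨⟨le_rfl, by dsimp only; linarith⟩, ⟨by dsimp only; linarith, by dsimp only; linarith⟩,
      ⟨by dsimp only; linarith, by dsimp only; linarith⟩, Or.inl (Or.inl rfl)⟩
  · exact pi_sf hc hu hw

theorem uw_onto (hp : 0 < p) (q u w : ℝ) : ∃ a b, UU p q a b = u ∧ WW p q a b = w := by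
  have : p ^ 2 + q ^ 2 ≠ 0 := by positivity
  refine ⟨(p * u + q * w) / (p ^ 2 + q ^ 2), (p * w - q * u) / (p ^ 2 + q ^ 2), ?_, ?_⟩
  · unfold UU; field_simp; ring
  · unfold WW; field_simp; ring

/-- outside the two wedges -/
def Out (p q a b : ℝ) : Prop :=
  (p + q) / 4 - b ≤ |a - (q - p) / 4| ∧ (q - p) / 4 - b ≤ |a - -(p + q) / 4|

theorem out_left (hp : 0 < p) (hq : p < q) (h : UU p q a b ≤ -cc p q) : Out p q a b := by
  unfold UU cc at h
  constructor
  · by_contra h'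
    have h1 := neg_abs_le (a - (q - p) / 4)
    have h2 := abs_nonneg (a - (q - p) / 4)
    nlinarith [mul_le_mul_of_nonneg_left h1 hp.le, mul_nonneg (sub_pos.2 hq).le h2,
      mul_lt_mul_of_pos_left (not_le.1 h') (hp.trans hq)]
  · by_contra h'
    have h1 := neg_abs_le (a - -(p + q) / 4)
    have h2 := abs_nonneg (a - -(p + q) / 4)
    nlinarith [mul_le_mul_of_nonneg_left h1 hp.le, mul_nonneg (sub_pos.2 hq).le h2,
      mul_lt_mul_of_pos_left (not_le.1 h') (hp.trans hq)]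

theorem g_onto (hp : 0 < p) (hq : p < q) {X Y Z : ℝ} (hX : 0 ≤ X ∧ X ≤ cc p q)
    (hY : 0 ≤ Y ∧ Y ≤ cc p q) (hZ : 0 ≤ Z ∧ Z ≤ 2 * cc p q)
    (h : X = 0 ∨ Y = 0 ∨ Z = 0 ∨ Z = 2 * cc p q) :
    ∃ a b, 0 ≤ b ∧ |UU p q a b| ≤ 2 * cc p q ∧ |WW p q a b| ≤ 2 * cc p q ∧
      gg p q a b = (X, Y, Z) ∧ Out p q a b := by
  have hc := cc_nn p q
  have hq0 := hp.trans hq
  have sgn : ∀ a b, 0 ≤ p * WW p q a b - q * UU p q a b → 0 ≤ b := fun a b h => by
    have : p * WW p q a b - q * UU p q a b = (p ^ 2 + q ^ 2) * b := by unfold UU WW; ring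
    rw [this] at h
    exact (mul_nonneg_iff_of_pos_left (by positivity)).1 h
  have nU : ∀ a b, UU p q (-a) (-b) = -UU p q a b := fun a b => by unfold UU; ring
  have nW : ∀ a b, WW p q (-a) (-b) = -WW p q a b := fun a b => by unfold WW; ring
  have ab : ∀ t, -(2 * cc p q) ≤ t → t ≤ 2 * cc p q → |t| ≤ 2 * cc p q := fun t h1 h2 =>
    abs_le.2 ⟨h1, h2⟩
  have oR : ∀ a b, q / 2 ≤ a + b → Out p q a b := fun a b h =>
    ⟨by linarith [le_abs_self (a - (q - p) / 4)], by linarith [le_abs_self (a - -(p + q) / 4)]⟩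
  rcases h with h | h | h | h
  · obtain ⟨a, b, hu, hw⟩ := uw_onto hp q (cc p q - Z) (Y + cc p q)
    by_cases h1 : 0 ≤ b ∧ q / 2 ≤ a + b
    · refine ⟨a, b, h1.1, ab _ (by linarith) (by linarith), ab _ (by linarith) (by linarith), ?_,
        oR a b h1.2⟩
      rw [g_right hp hq h1.1 h1.2, pi_N hc (by linarith) (by linarith) (by linarith), hu, hw, h]
      simp
    by_cases h2 : b ≤ 0 ∧ q / 2 ≤ a - b
    · have k : -a ≤ -(p + q) / 4 := by
        unfold UU cc at hu; unfold cc at hZ; nlinarith [h2.2]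
      refine ⟨-a, -b, by linarith, by rw [nU]; exact ab _ (by linarith) (by linarith),
        by rw [nW]; exact ab _ (by linarith) (by linarith), ?_,
        by linarith [neg_le_abs (-a - (q - p) / 4), h2.2],
        by linarith [neg_le_abs (-a - -(p + q) / 4), h2.2]⟩
      rw [g_low hp hq (by linarith) k, nU, nW,
        pi_S hc (by linarith) (by linarith) (by linarith), hu, hw, h]
      simp
    have h3 : a + b ≤ q / 2 ∧ a - b ≤ q / 2 := by
      rcases le_total 0 b with h0 | h0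
      · have := not_le.1 fun e => h1 ⟨h0, e⟩
        constructor <;> linarith
      · have := not_le.1 fun e => h2 ⟨h0, e⟩
        constructor <;> linarith
    have e1 : UU p q (b - p / 2) (q / 2 - a) = Y - cc p q := by
      unfold WW at hw; unfold UU; unfold cc at hw ⊢; linear_combination hw
    have e2 : WW p q (b - p / 2) (q / 2 - a) = Z - cc p q := by
      unfold UU at hu; unfold WW; linear_combination -hu
    have k : b - p / 2 ≤ (q - p) / 4 := by
      unfold UU cc at e1; nlinarith [h3.1]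
    refine ⟨b - p / 2, q / 2 - a, by linarith, ab _ (by linarith) (by linarith),
      ab _ (by linarith) (by linarith), ?_,
      by linarith [neg_le_abs (b - p / 2 - (q - p) / 4), h3.1],
      by linarith [le_abs_self (b - p / 2 - -(p + q) / 4), h3.2]⟩
    rw [g_e k (by linarith) (by linarith), e1, e2, h]
    simp
  · obtain ⟨a, b, hu, hw⟩ := uw_onto hp q (-X - cc p q) (Z - cc p q)
    have hb : 0 ≤ b := sgn a b (by
      rw [hu, hw]
      nlinarith [mul_nonneg hp.le hZ.1, mul_nonneg hq0.le hX.1, mul_nonneg (sub_pos.2 hq).le hc])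
    refine ⟨a, b, hb, ab _ (by linarith) (by linarith), ab _ (by linarith) (by linarith), ?_,
      out_left hp hq (by linarith)⟩
    rw [g_left hp hq hb (by linarith), pi_W hc (by linarith) (by linarith) (by linarith), hu, hw, h]
    simp
  · obtain ⟨a, b, hu, hw⟩ := uw_onto hp q (X + cc p q) (Y + cc p q)
    rcases le_total 0 b with hb | hb
    · have k := (east hp hq hb (show cc p q ≤ UU p q a b by linarith)).1
      refine ⟨a, b, hb, ab _ (by linarith) (by linarith), ab _ (by linarith) (by linarith), ?_,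
        oR a b k⟩
      rw [g_right hp hq hb k, pi_NE hc (by linarith) (by linarith), hu, hw, h]
      simp
    · have k : UU p q (-a) (-b) ≤ -cc p q := by rw [nU]; linarith
      refine ⟨-a, -b, by linarith, by rw [nU]; exact ab _ (by linarith) (by linarith),
        by rw [nW]; exact ab _ (by linarith) (by linarith), ?_, out_left hp hq k⟩
      rw [g_left hp hq (by linarith) k, nU, nW, pi_SW hc (by linarith) (by linarith), hu, hw, h]
      simp
  · obtain ⟨a, b, hu, hw⟩ := uw_onto hp q (-X - cc p q) (Y + cc p q)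
    have hb : 0 ≤ b := sgn a b (by
      rw [hu, hw]
      nlinarith [mul_nonneg hp.le hY.1, mul_nonneg hq0.le hX.1, mul_nonneg hp.le hc,
        mul_nonneg hq0.le hc])
    refine ⟨a, b, hb, ab _ (by linarith) (by linarith), ab _ (by linarith) (by linarith), ?_,
      out_left hp hq (by linarith)⟩
    rw [g_left hp hq hb (by linarith), pi_NW hc (by linarith) (by linarith), hu, hw, h]
    simp

/-- the reflection of a coordinate -/
noncomputable def fl (c : ℝ) (m : ℤ) (t : ℝ) : ℝ := if Even m then t else 2 * c - t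

/-- the symmetry of the cube that belongs to a centre -/
noncomputable def sy (c : ℝ) (m n : ℤ) (x : T3) : T3 := (fl c m x.1, fl c n x.2.1, fl c (m + n) x.2.2)

theorem fl_succ (c : ℝ) (m : ℤ) (t : ℝ) : fl c (m + 1) (2 * c - t) = fl c m t := by
  unfold fl
  by_cases h : Even m <;> simp [h]

theorem fl_fl (c : ℝ) (m : ℤ) (t : ℝ) : fl c m (fl c m t) = t := by
  unfold fl; split_ifs <;> ring

theorem fl_two (c : ℝ) (m j : ℤ) : fl c (m + 2 * j) = fl c m := by
  ext t; simp [fl, Int.even_add]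

theorem sy_sy (c : ℝ) (m n : ℤ) (x : T3) : sy c m n (sy c m n x) = x := by
  simp [sy, fl_fl]

theorem sy_two (c : ℝ) (m n i j : ℤ) : sy c (m + 2 * i) (n + 2 * j) = sy c m n := by
  ext1 x
  rw [sy, sy, fl_two, fl_two, show m + 2 * i + (n + 2 * j) = m + n + 2 * (i + j) by ring, fl_two]

theorem sy_QQ (c : ℝ) (m n : ℤ) (x y : T3) : QQ (sy c m n x) (sy c m n y) = QQ x y := by
  have : ∀ m s t, (fl c m s - fl c m t) ^ 2 = (s - t) ^ 2 := fun m s t => by
    unfold fl; split_ifs <;> ring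
  simp only [QQ, sy, this]

theorem sy_sf {c : ℝ} (m n : ℤ) {x : T3} (h : Sf c x) : Sf c (sy c m n x) := by
  have b : ∀ m t, 0 ≤ t ∧ t ≤ 2 * c → 0 ≤ fl c m t ∧ fl c m t ≤ 2 * c := fun m t h => by
    unfold fl; split_ifs <;> constructor <;> linarith [h.1, h.2]
  have f : ∀ m t, t = 0 ∨ t = 2 * c → fl c m t = 0 ∨ fl c m t = 2 * c := fun m t h => by
    unfold fl; rcases h with h | h <;> split_ifs <;> simp [h]
  exact ⟨b _ _ h.1, b _ _ h.2.1, b _ _ h.2.2.1, h.2.2.2.imp (f _ _) (Or.imp (f _ _) (f _ _))⟩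

theorem stepx {c u : ℝ} (hc : 0 ≤ c) (w : ℝ) (m n : ℤ) (h1 : c ≤ u) (h2 : u ≤ 3 * c) :
    sy c (m + 1) n (pi0 c (u - 4 * c) w) = sy c m n (pi0 c u w) := by
  have b := cl_bd hc w
  simp only [sy, pi0]
  rw [mx_lo hc (show u - 4 * c ≤ -c by linarith), cl_lo hc (show u - 4 * c ≤ -c by linarith),
    mx_hi hc h1, cl_hi hc h1, abs_of_nonpos (by linarith), abs_of_nonneg (by linarith),
    ← fl_succ c m, ← fl_succ c (m + n), add_right_comm m n 1,
    show -(u - 4 * c) - c = 2 * c - (u - c) by ring,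
    show -(-c - cl c w) = 2 * c - (c - cl c w) by ring]

theorem stepy {c w : ℝ} (hc : 0 ≤ c) (u : ℝ) (m n : ℤ) (h1 : c ≤ w) (h2 : w ≤ 3 * c) :
    sy c m (n + 1) (pi0 c u (w - 4 * c)) = sy c m n (pi0 c u w) := by
  have b := cl_bd hc u
  simp only [sy, pi0]
  rw [mx_lo hc (show w - 4 * c ≤ -c by linarith), cl_lo hc (show w - 4 * c ≤ -c by linarith),
    mx_hi hc h1, cl_hi hc h1, abs_of_nonneg (by linarith), abs_of_nonpos (by linarith),
    ← fl_succ c n, ← fl_succ c (m + n), add_assoc m n 1]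
  congr 3 <;> ring

theorem near_int {c u : ℝ} (hc : 0 < c) {m m' : ℤ} (h : |u - 4 * c * m| ≤ 3 * c)
    (h' : |u - 4 * c * m'| ≤ 3 * c) : m' = m ∨ m' = m + 1 ∨ m = m' + 1 := by
  rw [abs_le] at h h'
  have h1 : (m' : ℝ) < m + 2 := by nlinarith
  have h2 : (m : ℝ) < m' + 2 := by nlinarith
  have h3 : m' < m + 2 := by exact_mod_cast h1
  have h4 : m < m' + 2 := by exact_mod_cast h2
  omega

theorem cons {c u w : ℝ} (hc : 0 < c) {m n m' n' : ℤ} (h1 : |u - 4 * c * m| ≤ 3 * c)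
    (h2 : |u - 4 * c * m'| ≤ 3 * c) (h3 : |w - 4 * c * n| ≤ 3 * c)
    (h4 : |w - 4 * c * n'| ≤ 3 * c) :
    sy c m n (pi0 c (u - 4 * c * m) (w - 4 * c * n))
      = sy c m' n' (pi0 c (u - 4 * c * m') (w - 4 * c * n')) := by
  have e : ∀ (t : ℝ) (j : ℤ), t - 4 * c * ((j + 1 : ℤ) : ℝ) = t - 4 * c * j - 4 * c := fun t j => by
    push_cast; ring
  trans sy c m' n (pi0 c (u - 4 * c * m') (w - 4 * c * n))
  · rcases near_int hc h1 h2 with rfl | rfl | rfl
    · rfl
    · rw [e] at h2 ⊢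
      exact (stepx hc.le _ _ _ (by linarith [abs_le.1 h2]) (by linarith [abs_le.1 h1])).symm
    · rw [e] at h1 ⊢
      exact stepx hc.le _ _ _ (by linarith [abs_le.1 h1]) (by linarith [abs_le.1 h2])
  · rcases near_int hc h3 h4 with rfl | rfl | rfl
    · rfl
    · rw [e] at h4 ⊢
      exact (stepy hc.le _ _ _ (by linarith [abs_le.1 h4]) (by linarith [abs_le.1 h3])).symm
    · rw [e] at h3 ⊢
      exact stepy hc.le _ _ _ (by linarith [abs_le.1 h3]) (by linarith [abs_le.1 h4])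

end Pool.Agent.P.MP_dba4bb_co.Pw
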