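import Pool.Agent.P.MP_dba4bb_co.Pw.D

/-! The folding of the whole band. -/

namespace Pool.Agent.P.MP_dba4bb_co.Pw

open Set

structure Hy (p q : ℤ) : Prop where
  hp : (0 : ℝ) < p
  hq : (p : ℝ) < q
  h2 : (q : ℝ) ≤ 2 * p
  h10 : (10 : ℝ) ≤ q
  co : IsCoprime p q

def hh (p q m n : ℤ) : ℤ := p * n - q * m

def aa (p q m n : ℤ) : ℤ := p * m + q * n

def ep (p q m n : ℤ) : ℝ := if hh p q m n ≤ 0 then 1 else -1

def kap (p q m n : ℤ) : ℝ := if hh p q m n ≤ 0 then 1 - (hh p q m n : ℝ) else hh p q m n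

noncomputable def Loc (p q m n : ℤ) (a b : ℝ) : T3 :=
  sy (cc p q) m n (gg p q (ep p q m n * (a - aa p q m n)) (ep p q m n * (b - hh p q m n)))

noncomputable def GG (p q : ℤ) (a b : ℝ) : T3 :=
  Loc p q (round (UU p q a b / (4 * cc p q))) (round (WW p q a b / (4 * cc p q))) a b

def Near (p q m n : ℤ) (a b r : ℝ) : Prop :=
  |UU p q a b - 4 * cc p q * m| ≤ r ∧ |WW p q a b - 4 * cc p q * n| ≤ r

variable {p q m n m' n' : ℤ} {a b k : ℝ}

theorem ep_cases (p q m n : ℤ) : ep p q m n = 1 ∨ ep p q m n = -1 := by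
  unfold ep; split_ifs <;> simp

theorem ep_sq (p q m n : ℤ) : ep p q m n ^ 2 = 1 := by
  rcases ep_cases p q m n with h | h <;> simp [h]

theorem ep_abs (p q m n : ℤ) (t : ℝ) : |ep p q m n * t| = |t| := by
  rcases ep_cases p q m n with h | h <;> simp [h]

theorem lb_bd (p q m n : ℤ) (hb : b ∈ Icc (0 : ℝ) 1) :
    0 ≤ ep p q m n * (b - hh p q m n) ∧ ep p q m n * (b - hh p q m n) ≤ kap p q m n := by
  unfold ep kap
  split_ifs with h
  · have : (hh p q m n : ℝ) ≤ 0 := by exact_mod_cast h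
    constructor <;> linarith [hb.1, hb.2]
  · have : (1 : ℝ) ≤ hh p q m n := by exact_mod_cast (show 1 ≤ hh p q m n by omega)
    constructor <;> linarith [hb.1, hb.2]

theorem kap_ge (p q m n : ℤ) : 1 ≤ kap p q m n := by
  unfold kap
  split_ifs with h
  · have : (hh p q m n : ℝ) ≤ 0 := by exact_mod_cast h
    linarith
  · exact_mod_cast (show 1 ≤ hh p q m n by omega)

theorem U_loc (p q m n : ℤ) (e a b : ℝ) : UU p q (e * (a - aa p q m n)) (e * (b - hh p q m n))
    = e * (UU p q a b - 4 * cc p q * m) := by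
  unfold UU aa hh cc; push_cast; ring

theorem W_loc (p q m n : ℤ) (e a b : ℝ) : WW p q (e * (a - aa p q m n)) (e * (b - hh p q m n))
    = e * (WW p q a b - 4 * cc p q * n) := by
  unfold WW aa hh cc; push_cast; ring

theorem Hy.cpos (H : Hy p q) : 0 < cc p q := by
  have := H.hp; unfold cc; positivity

theorem Hy.qq (H : Hy p q) : (q : ℝ) ^ 2 / 2 ≤ 8 / 5 * cc p q := by
  unfold cc; nlinarith [H.hp, H.hq, H.h2]

theorem sep {c u : ℝ} (hc : 0 < c) (h : m ≠ m') :
    4 * c ≤ |u - 4 * c * m| + |u - 4 * c * m'| := by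
  have h1 : (1 : ℝ) ≤ |(m' : ℝ) - m| := by
    exact_mod_cast Int.one_le_abs (sub_ne_zero.2 h.symm)
  have h2 := abs_sub (u - 4 * c * m) (u - 4 * c * m')
  rw [show u - 4 * c * m - (u - 4 * c * m') = 4 * c * ((m' : ℝ) - m) by ring, abs_mul,
    abs_of_pos (show 0 < 4 * c by linarith)] at h2
  nlinarith

theorem near_eq (H : Hy p q) {r r' : ℝ} (h : Near p q m n a b r) (h' : Near p q m' n' a b r')
    (hr : r + r' < 4 * cc p q) : m = m' ∧ n = n' := by
  constructor <;> by_contra e
  · linarith [sep (u := UU p q a b) H.cpos e, h.1, h'.1]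
  · linarith [sep (u := WW p q a b) H.cpos e, h.2, h'.2]

theorem loc_far (H : Hy p q) (hb : b ∈ Icc (0 : ℝ) 1)
    (h : 8 / 5 * cc p q ≤ |UU p q a b - 4 * cc p q * m| ∨
      8 / 5 * cc p q ≤ |WW p q a b - 4 * cc p q * n|) :
    Loc p q m n a b = sy (cc p q) m n
      (pi0 (cc p q) (UU p q a b - 4 * cc p q * m) (WW p q a b - 4 * cc p q * n)) := by
  rw [Loc, g_far H.hp H.hq (lb_bd p q m n hb).1, U_loc, W_loc]
  · rcases ep_cases p q m n with e | e <;> rw [e]
    · rw [one_mul, one_mul]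
    · rw [neg_one_mul, neg_one_mul, pi_neg H.cpos.le]
  · rw [U_loc, W_loc, ep_abs, ep_abs]
    exact h.imp H.qq.trans H.qq.trans

theorem loc_eq (H : Hy p q) (hb : b ∈ Icc (0 : ℝ) 1) (h : Near p q m n a b (12 / 5 * cc p q))
    (h' : Near p q m' n' a b (12 / 5 * cc p q)) : Loc p q m n a b = Loc p q m' n' a b := by
  have hc := H.cpos
  by_cases e : m = m' ∧ n = n'
  · rw [e.1, e.2]
  rw [not_and_or] at e
  rw [loc_far H hb, loc_far H hb]
  · exact cons hc (by linarith [h.1]) (by linarith [h'.1]) (by linarith [h.2]) (by linarith [h'.2])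
  · exact e.imp (fun e => by linarith [sep (u := UU p q a b) hc e, h.1])
      fun e => by linarith [sep (u := WW p q a b) hc e, h.2]
  · exact e.imp (fun e => by linarith [sep (u := UU p q a b) hc e, h'.1])
      fun e => by linarith [sep (u := WW p q a b) hc e, h'.2]

theorem round_near (H : Hy p q) (a b : ℝ) : Near p q (round (UU p q a b / (4 * cc p q)))
    (round (WW p q a b / (4 * cc p q))) a b (2 * cc p q) := by
  have hc := H.cpos
  have : ∀ t : ℝ, |t - 4 * cc p q * round (t / (4 * cc p q))| ≤ 2 * cc p q := fun t => by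
    have h := abs_sub_round (t / (4 * cc p q))
    rw [show t - 4 * cc p q * round (t / (4 * cc p q))
      = 4 * cc p q * (t / (4 * cc p q) - round (t / (4 * cc p q))) by field_simp, abs_mul,
      abs_of_pos (show 0 < 4 * cc p q by linarith)]
    nlinarith
  exact ⟨this _, this _⟩

theorem Near.mono {r r' : ℝ} (h : Near p q m n a b r) (hr : r ≤ r') : Near p q m n a b r' :=
  ⟨h.1.trans hr, h.2.trans hr⟩

theorem G_eq (H : Hy p q) (hb : b ∈ Icc (0 : ℝ) 1) (h : Near p q m n a b (12 / 5 * cc p q)) :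
    GG p q a b = Loc p q m n a b :=
  loc_eq H hb ((round_near H a b).mono (by linarith [H.cpos])) h

theorem poly_Bd (u v : ℝ) : Ex.Poly (Bd u v) :=
  poly_inter (poly_inter pl_b (poly_half 1 0 1 (fun z => z.re) (fun _ => 1) fun z => by ring))
    (poly_inter (pl_ag u) (pl_al v))

theorem poly_near (p q m n : ℤ) (r : ℝ) : Ex.Poly {z : ℂ | Near p q m n z.im z.re r} := by
  convert poly_inter
    (poly_inter (pl_Ug p q (4 * cc p q * m - r)) (pl_Ul p q (4 * cc p q * m + r)))
    (poly_inter (pl_Wg p q (4 * cc p q * n - r)) (pl_Wl p q (4 * cc p q * n + r))) using 1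
  ext z
  simp only [Near, abs_le, mem_ofPred_eq, mem_inter_iff]
  constructor <;> rintro ⟨⟨h1, h2⟩, h3, h4⟩ <;> refine ⟨⟨?_, ?_⟩, ?_, ?_⟩ <;> linarith

theorem good (H : Hy p q) (hk0 : 0 < k) (hk : k ^ 2 * ((p : ℝ) ^ 2 + (q : ℝ) ^ 2) = 1) :
    Good (k * (2 * cc p q)) fun z => emb k (GG p q z.im z.re) := by
  have hc := H.cpos
  have hp := H.hp
  have hq := H.hq
  refine ⟨fun u v => ?_, fun a b hb b' hb' e => ?_, fun a b hb => ?_⟩
  · obtain ⟨M, hM⟩ := exists_int_gt (2 * (q : ℝ) * (|u| + |v| + 1) / (4 * cc p q) + 1)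
    have e : Bd u v = ⋃ x ∈ Finset.Icc (-M) M ×ˢ Finset.Icc (-M) M,
        Bd u v ∩ {z : ℂ | Near p q x.1 x.2 z.im z.re (2 * cc p q)} := by
      refine Subset.antisymm (fun z hz => ?_) (iUnion₂_subset fun _ _ => inter_subset_left)
      have b1 : |z.im| ≤ |u| + |v| := abs_le.2
        ⟨by linarith [hz.2.1, neg_abs_le u, abs_nonneg v], by linarith [hz.2.2, le_abs_self v, abs_nonneg u]⟩
      have b2 : ∀ t : ℝ, |t| ≤ 2 * q * (|u| + |v| + 1) →
          round (t / (4 * cc p q)) ∈ Finset.Icc (-M) M := fun t ht => by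
        have h1 := abs_le.1 (abs_sub_round (t / (4 * cc p q)))
        have h2 : |t / (4 * cc p q)| ≤ 2 * q * (|u| + |v| + 1) / (4 * cc p q) := by
          rw [abs_div, abs_of_pos (show 0 < 4 * cc p q by linarith)]; gcongr
        have h3 := abs_le.1 h2
        rw [Finset.mem_Icc]
        constructor
        · exact_mod_cast (show ((-M : ℤ) : ℝ) ≤ round (t / (4 * cc p q)) by push_cast; linarith)
        · exact_mod_cast (show (round (t / (4 * cc p q)) : ℝ) ≤ M by linarith)
      have b3 := abs_le.1 b1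
      have b4 := hz.1.1
      have b5 := hz.1.2
      have b6 : 0 ≤ |u| + |v| := by positivity
      refine mem_iUnion₂.2 ⟨(_, _), Finset.mem_product.2 ⟨b2 _ ?_, b2 _ ?_⟩, hz,
        round_near H z.im z.re⟩
      · unfold UU; rw [abs_le]; constructor <;> nlinarith
      · unfold WW; rw [abs_le]; constructor <;> nlinarith
    rw [e]
    refine PW.biUnion _ _ fun x _ => ?_
    have h1 := ((pw_half hp hq hk).mv (ep_sq p q x.1 x.2)
      ⟨-(ep p q x.1 x.2 * hh p q x.1 x.2), -(ep p q x.1 x.2 * aa p q x.1 x.2)⟩).inter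
      (poly_inter (poly_Bd u v) (poly_near p q x.1 x.2 (2 * cc p q)))
    rw [inter_eq_right.2 fun z hz => by
      have := (lb_bd p q x.1 x.2 hz.1.1).1
      simp only [mem_preimage, mv, mem_ofPred_eq]
      linarith] at h1
    refine h1.congr fun z hz w hw => ?_
    rw [G_eq H hz.1.1 (hz.2.mono (by linarith)), G_eq H hw.1.1 (hw.2.mono (by linarith)), Loc, Loc,
      dist_emb, sy_QQ, dist_emb]
    simp only [mv, sub_eq_add_neg, mul_add, mul_neg]
  · have h1 := round_near H a b
    have h2 : Near p q (round (UU p q a b / (4 * cc p q))) (round (WW p q a b / (4 * cc p q))) a b'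
        (12 / 5 * cc p q) := by
      have h3 : (q : ℝ) ≤ 2 / 5 * cc p q := by unfold cc; nlinarith [H.h10, H.h2]
      have h4 := abs_le.1 h1.1
      have h5 := abs_le.1 h1.2
      have h6 : UU p q a b' = UU p q a b + q * (b - b') := by unfold UU; ring
      have h7 : WW p q a b' = WW p q a b - p * (b - b') := by unfold WW; ring
      constructor <;> rw [abs_le] <;> constructor <;> nlinarith [hb.1, hb.2, hb'.1, hb'.2]
    have h3 := emb_inj hk0 e
    dsimp only at h3
    rw [G_eq H hb' h2, GG, Loc, Loc] at h3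
    have h4 := congrArg (sy (cc p q) (round (UU p q a b / (4 * cc p q)))
      (round (WW p q a b / (4 * cc p q)))) h3
    rw [sy_sy, sy_sy] at h4
    have h5 := g_inj hp hq hk0 hk (lb_bd p q _ _ hb).1 (lb_bd p q _ _ hb').1 h4
    rcases ep_cases p q (round (UU p q a b / (4 * cc p q))) (round (WW p q a b / (4 * cc p q)))
      with e | e <;> rw [e] at h5 <;> linarith
  · have h1 := round_near H a b
    refine emb_mem hk0 (sy_sf _ _ (g_sf hp hq (lb_bd p q _ _ hb).1 ?_ ?_))
    · rw [U_loc, ep_abs]; linarith [h1.1]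
    · rw [W_loc, ep_abs]; linarith [h1.2]

end Pool.Agent.P.MP_dba4bb_co.Pw
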