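import Pool.Agent.P.MP_dba4bb_co.Pw.E

/-! The intervals cut out of the band, and the folding of the strip. -/

namespace Pool.Agent.P.MP_dba4bb_co.Pw

open Set

/-- the axis of a wedge -/
noncomputable def ax (p q : ℝ) : Bool → ℝ
  | true => (q - p) / 4
  | false => -(p + q) / 4

/-- the height of a wedge -/
noncomputable def ht (p q : ℝ) : Bool → ℝ
  | true => (p + q) / 4
  | false => (q - p) / 4

noncomputable def ctr (p q m n : ℤ) (τ : Bool) : ℝ := aa p q m n + ep p q m n * ax p q τ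

noncomputable def len (p q m n : ℤ) (τ : Bool) : ℝ := ht p q τ - kap p q m n

variable {p q m n m' n' : ℤ} {a b k : ℝ} {τ τ' : Bool}

theorem la_ctr (p q m n : ℤ) (τ : Bool) (a : ℝ) :
    ep p q m n * (a - aa p q m n) - ax p q τ = ep p q m n * (a - ctr p q m n τ) := by
  unfold ctr; linear_combination (ax p q τ) * ep_sq p q m n

theorem wedge_near (H : Hy p q) (hb : b ∈ Icc (0 : ℝ) 1)
    (h : |a - ctr p q m n τ| ≤ len p q m n τ) : Near p q m n a b (8 / 5 * cc p q) := by
  have h1 := lb_bd p q m n hb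
  rw [← ep_abs p q m n, ← la_ctr, abs_le] at h
  have hp := H.hp
  have hq := H.hq
  have h2 := H.qq
  unfold Near
  rw [← ep_abs p q m n, ← ep_abs p q m n (WW _ _ _ _ - _), ← U_loc p q m n, ← W_loc p q m n]
  generalize ep p q m n * (a - aa p q m n) = x at *
  generalize ep p q m n * (b - hh p q m n) = y at *
  have h3 : x + y ≤ q / 2 ∧ -x + y ≤ q / 2 := by
    cases τ <;> simp only [len, ax, ht] at h <;> constructor <;> linarith [h.1, h.2]
  have h4 : |x| + y ≤ q / 2 := by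
    rcases abs_cases x with e | e <;> linarith [h3.1, h3.2]
  have h5 := le_abs_self x
  have h6 := neg_abs_le x
  have h7 := abs_nonneg x
  unfold UU WW
  constructor <;> rw [abs_le] <;> constructor <;> nlinarith [h1.1]

theorem mirror (H : Hy p q) (hb : b ∈ Icc (0 : ℝ) 1) (h : 0 ≤ len p q m n τ) :
    GG p q (ctr p q m n τ - len p q m n τ) b = GG p q (ctr p q m n τ + len p q m n τ) b := by
  have hc := H.cpos
  have h1 := lb_bd p q m n hb
  rw [G_eq H hb ((wedge_near (m := m) (n := n) (τ := τ) H hb (by simp [abs_of_nonneg h])).mono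
      (by linarith)),
    G_eq H hb ((wedge_near (m := m) (n := n) (τ := τ) H hb (by simp [abs_of_nonneg h])).mono
      (by linarith)), Loc, Loc]
  have e1 := la_ctr p q m n τ (ctr p q m n τ - len p q m n τ)
  have e2 := la_ctr p q m n τ (ctr p q m n τ + len p q m n τ)
  rw [show ep p q m n * (ctr p q m n τ - len p q m n τ - aa p q m n)
      = ax p q τ - ep p q m n * len p q m n τ by linarith,
    show ep p q m n * (ctr p q m n τ + len p q m n τ - aa p q m n)
      = ax p q τ + ep p q m n * len p q m n τ by linarith]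
  have h2 : |ep p q m n * len p q m n τ| ≤ ht p q τ - ep p q m n * (b - hh p q m n) := by
    rw [ep_abs, abs_of_nonneg h]; unfold len; linarith [h1.2]
  congr 1
  cases τ
  · exact g_small H.hp H.hq h1.1 h2
  · exact g_big H.hp H.hq h1.1 h2

theorem disj (H : Hy p q) (h : |a - ctr p q m n τ| ≤ len p q m n τ)
    (h' : |a - ctr p q m' n' τ'| ≤ len p q m' n' τ') : m = m' ∧ n = n' ∧ τ = τ' := by
  have z : (0 : ℝ) ∈ Icc (0 : ℝ) 1 := ⟨le_rfl, zero_le_one⟩
  obtain ⟨rfl, rfl⟩ := near_eq H (wedge_near H z h) (wedge_near H z h') (by linarith [H.cpos])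
  refine ⟨rfl, rfl, ?_⟩
  rw [← ep_abs p q m n, ← la_ctr, abs_le] at h h'
  have := kap_ge p q m n
  cases τ <;> cases τ' <;> simp only [len, ax, ht] at h h' <;> first | rfl | linarith [h.1, h.2, h'.1, h'.2]

theorem ends (H : Hy p q) (j : ℤ) :
    ¬ |(q : ℝ) / 2 + j * (8 * cc p q) - ctr p q m n τ| ≤ len p q m n τ := by
  intro h
  have z : (0 : ℝ) ∈ Icc (0 : ℝ) 1 := ⟨le_rfl, zero_le_one⟩
  have hp := H.hp
  have hq := H.hq
  have h1 : Near p q (2 * j * p) (2 * j * q) ((q : ℝ) / 2 + j * (8 * cc p q)) 0 (8 / 5 * cc p q) := by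
    have e1 : aa p q (2 * j * p) (2 * j * q) = j * (8 * cc p q) := by
      unfold aa cc; push_cast; ring
    have e2 : (hh p q (2 * j * p) (2 * j * q) : ℝ) = 0 := by unfold hh; push_cast; ring
    have e3 := U_loc p q (2 * j * p) (2 * j * q) 1 ((q : ℝ) / 2 + j * (8 * cc p q)) 0
    have e4 := W_loc p q (2 * j * p) (2 * j * q) 1 ((q : ℝ) / 2 + j * (8 * cc p q)) 0
    simp only [one_mul, e1, e2, add_sub_cancel_right, sub_zero] at e3 e4
    have := H.qq
    unfold Near
    rw [← e3, ← e4]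
    unfold UU WW
    constructor <;> rw [abs_le] <;> constructor <;> nlinarith
  obtain ⟨rfl, rfl⟩ := near_eq H (wedge_near H z h) h1 (by linarith [H.cpos])
  have e1 : aa p q (2 * j * p) (2 * j * q) = j * (8 * cc p q) := by
    unfold aa cc; push_cast; ring
  have e2 : hh p q (2 * j * p) (2 * j * q) = 0 := by unfold hh; ring
  have := kap_ge p q (2 * j * p) (2 * j * q)
  rw [ctr, e1, ep, if_pos e2.le, abs_le] at h
  cases τ <;> simp only [len, ax, ht] at h <;> linarith [h.1, h.2]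

theorem shift_centre (p q m n t : ℤ) : hh p q (m + t * p) (n + t * q) = hh p q m n ∧
    ep p q (m + t * p) (n + t * q) = ep p q m n ∧
    (aa p q (m + t * p) (n + t * q) : ℝ) = aa p q m n + t * (4 * cc p q) := by
  have e : hh p q (m + t * p) (n + t * q) = hh p q m n := by unfold hh; ring
  exact ⟨e, by unfold ep; rw [e], by unfold aa cc; push_cast; ring⟩

theorem exists_shift {L : ℝ} (hL : 0 < L) (x u : ℝ) :
    ∃ t : ℤ, u ≤ x + t * L ∧ x + t * L < u + L := by
  refine ⟨⌈(u - x) / L⌉, ?_, ?_⟩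
  · have := (div_le_iff₀ hL).1 (Int.le_ceil ((u - x) / L)); linarith
  · have := Int.ceil_lt_add_one ((u - x) / L)
    have h := (lt_div_iff₀ hL).1 (show (⌈(u - x) / L⌉ : ℝ) - 1 < (u - x) / L by linarith)
    linarith

theorem exists_centre (H : Hy p q) (h : ℤ) (τ : Bool) (u : ℝ) : ∃ m n : ℤ, hh p q m n = h ∧
    u ≤ ctr p q m n τ ∧ ctr p q m n τ < u + 4 * cc p q := by
  obtain ⟨x, y, e⟩ := H.co
  obtain ⟨t, h1, h2⟩ := exists_shift (show 0 < 4 * cc p q by linarith [H.cpos])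
    (ctr p q (-y * h) (x * h) τ) u
  obtain ⟨e1, e2, e3⟩ := shift_centre p q (-y * h) (x * h) t
  refine ⟨-y * h + t * p, x * h + t * q, ?_, ?_, ?_⟩
  · rw [e1]; unfold hh; linear_combination h * e
  · unfold ctr at h1 ⊢; rw [e2, e3]; linarith
  · unfold ctr at h2 ⊢; rw [e2, e3]; linarith

theorem onto (H : Hy p q) (u : ℝ) {x : T3} (hx : Sf (cc p q) x) :
    ∃ a ∈ Icc u (u + 8 * cc p q), ∃ b ∈ Icc (0 : ℝ) 1, GG p q a b = x ∧
      ∀ m n τ, len p q m n τ ≤ |a - ctr p q m n τ| := by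
  have hc := H.cpos
  have par : ∀ t : ℝ, ∃ μ : ℤ, fl (cc p q) μ t ≤ cc p q := fun t => by
    rcases le_total t (cc p q) with h | h
    · exact ⟨0, by simpa [fl] using h⟩
    · exact ⟨1, by simp only [fl, Int.not_even_one, if_false]; linarith⟩
  obtain ⟨μ, hμ⟩ := par x.1
  obtain ⟨ν, hν⟩ := par x.2.1
  obtain ⟨s1, s2, s3, s4⟩ := sy_sf μ ν hx
  have hμ' : (sy (cc p q) μ ν x).1 ≤ cc p q := hμ
  have hν' : (sy (cc p q) μ ν x).2.1 ≤ cc p q := hν
  obtain ⟨a', b', hb', hU, hW, hg, ho⟩ := g_onto H.hp H.hq ⟨s1.1, hμ'⟩ ⟨s2.1, hν'⟩ s3 (by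
    rcases s4 with (h | h) | (h | h) | h
    · exact Or.inl h
    · linarith
    · exact Or.inr (Or.inl h)
    · linarith
    · exact Or.inr (Or.inr h))
  have f0 : 0 ≤ ⌊b'⌋ := Int.floor_nonneg.2 hb'
  have f1 := Int.floor_le b'
  have f2 := Int.lt_floor_add_one b'
  obtain ⟨s, t, e⟩ := H.co
  obtain ⟨j, hj⟩ : ∃ j : ℤ, hh p q μ ν + 2 * j = -⌊b'⌋ ∨ hh p q μ ν + 2 * j = ⌊b'⌋ + 1 := by
    rcases Int.emod_two_eq_zero_or_one (hh p q μ ν + ⌊b'⌋) with h | h
    · exact ⟨-((hh p q μ ν + ⌊b'⌋) / 2), Or.inl (by omega)⟩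
    · exact ⟨(⌊b'⌋ + 1 - hh p q μ ν) / 2, Or.inr (by omega)⟩
  have e0 : hh p q (μ + 2 * (-t * j)) (ν + 2 * (s * j)) = hh p q μ ν + 2 * j := by
    unfold hh; linear_combination 2 * j * e
  obtain ⟨l, l1, l2⟩ := exists_shift (show 0 < 8 * cc p q by linarith)
    (aa p q (μ + 2 * (-t * j)) (ν + 2 * (s * j)) + ep p q (μ + 2 * (-t * j)) (ν + 2 * (s * j)) * a') u
  obtain ⟨e1, e2, e3⟩ := shift_centre p q (μ + 2 * (-t * j)) (ν + 2 * (s * j)) (2 * l)
  have e4 : sy (cc p q) (μ + 2 * (-t * j) + 2 * l * p) (ν + 2 * (s * j) + 2 * l * q)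
      = sy (cc p q) μ ν := by
    rw [mul_assoc 2 l p, mul_assoc 2 l q, sy_two, sy_two]
  rw [← e2] at l1 l2
  rw [← e0, ← e1] at hj
  generalize μ + 2 * (-t * j) + 2 * l * p = m at *
  generalize ν + 2 * (s * j) + 2 * l * q = n at *
  have sq := ep_sq p q m n
  have la : ep p q m n * (aa p q m n + ep p q m n * a' - aa p q m n) = a' := by
    linear_combination a' * sq
  have lb : ep p q m n * (hh p q m n + ep p q m n * b' - hh p q m n) = b' := by
    linear_combination b' * sq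
  have hb : (hh p q m n : ℝ) + ep p q m n * b' ∈ Icc (0 : ℝ) 1 := by
    unfold ep
    rcases hj with h | h
    · rw [if_pos (by omega), h]; push_cast; constructor <;> linarith
    · rw [if_neg (by omega), h]; push_cast; constructor <;> linarith
  have hn : Near p q m n (aa p q m n + ep p q m n * a') (hh p q m n + ep p q m n * b')
      (2 * cc p q) := by
    unfold Near
    rw [← ep_abs p q m n, ← ep_abs p q m n (WW _ _ _ _ - _), ← U_loc p q m n, ← W_loc p q m n,
      la, lb]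
    exact ⟨hU, hW⟩
  push_cast at e3
  refine ⟨aa p q m n + ep p q m n * a', ⟨by linarith, by linarith⟩, _, hb, ?_, fun m' n' τ => ?_⟩
  · rw [G_eq H hb (hn.mono (by linarith)), Loc, la, lb, hg, e4]
    exact sy_sy _ _ _ _
  · by_contra h
    have h1 := not_le.1 h
    obtain ⟨rfl, rfl⟩ := near_eq H (wedge_near H hb h1.le) hn (by linarith)
    have h2 := (lb_bd p q m' n' hb).2
    rw [← ep_abs p q m' n', ← la_ctr, la] at h1
    rw [lb] at h2
    cases τ <;> simp only [len, ax, ht] at h1 <;> linarith [ho.1, ho.2]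

theorem sum_len {h : ℝ} (h0 : 0 ≤ h) :
    h ^ 2 - h ≤ ∑ j ∈ Finset.range ⌊h⌋₊, 2 * (h - (j + 1)) := by
  have e : ∀ K : ℕ, ∑ j ∈ Finset.range K, 2 * (h - (j + 1)) = 2 * h * K - K * (K + 1) := by
    intro K
    induction K with
    | zero => simp
    | succ K ih => rw [Finset.sum_range_succ, ih]; push_cast; ring
  rw [e]
  have h1 := Nat.floor_le h0
  have h2 := Nat.lt_floor_add_one h
  nlinarith

/-- the folding of a strip along the direction `(p, q)` -/
theorem folds (H : Hy p q) {r : ℝ} (hr : 6 * cc p q + 2 * q ≤ r) :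
    Ex.Folds 1 r (√((p : ℝ) ^ 2 + (q : ℝ) ^ 2) / 2) := by
  classical
  have hc := H.cpos
  have hp := H.hp
  have hq := H.hq
  have hN : (0 : ℝ) < (p : ℝ) ^ 2 + (q : ℝ) ^ 2 := by positivity
  have hs := Real.sqrt_pos.2 hN
  have hs2 := Real.sq_sqrt hN.le
  have hk0 : 0 < 1 / √((p : ℝ) ^ 2 + (q : ℝ) ^ 2) := by positivity
  have hG := good H hk0 (by rw [div_pow, hs2]; field_simp)
  have es : √((p : ℝ) ^ 2 + (q : ℝ) ^ 2) / 2 = 1 / √((p : ℝ) ^ 2 + (q : ℝ) ^ 2) * (2 * cc p q) := by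
    unfold cc; field_simp; linarith
  rw [es]
  choose M N h1 h2 h3 using fun x : (Σ _ : Bool × Bool × Bool, ℕ) => exists_centre H
    (if x.1.1 then -(x.2 : ℤ) else x.2 + 1) x.1.2.2 (q / 2 + (if x.1.2.1 then 4 * cc p q else 0))
  have hl : ∀ x, len p q (M x) (N x) x.1.2.2 = ht p q x.1.2.2 - (x.2 + 1) := by
    rintro ⟨⟨e, i, τ⟩, j⟩
    have := h1 ⟨⟨e, i, τ⟩, j⟩
    unfold len kap
    rw [this]
    cases e
    · simp only [Bool.false_eq_true, if_false]; rw [if_neg (by omega)]; push_cast; ring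
    · simp only [if_true]; rw [if_pos (by omega)]; push_cast; ring
  have hht : ∀ τ, 0 ≤ ht p q τ := fun τ => by cases τ <;> simp only [ht] <;> linarith
  set I : Finset (Σ _ : Bool × Bool × Bool, ℕ) :=
    Finset.univ.sigma fun x => Finset.range ⌊ht p q x.2.2⌋₊ with hI
  have l0 : ∀ x ∈ I, 0 ≤ len p q (M x) (N x) x.1.2.2 := fun x hx => by
    have h4 : x.2 + 1 ≤ ⌊ht p q x.1.2.2⌋₊ := Finset.mem_range.1 (Finset.mem_sigma.1 hx).2
    have h5 := (Nat.le_floor_iff (hht _)).1 h4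
    rw [hl]; push_cast at h5; linarith
  obtain ⟨g, hg, hc'⟩ := skip _ (q / 2)
    (fun x => ctr p q (M x) (N x) x.1.2.2 - len p q (M x) (N x) x.1.2.2)
    (fun x => ctr p q (M x) (N x) x.1.2.2 + len p q (M x) (N x) x.1.2.2) I
    (q / 2 + 8 * cc p q) _ hG
    (fun x hx => by
      have a0 := l0 x hx
      have a1 := not_le.1 (ends (m := M x) (n := N x) (τ := x.1.2.2) H 0)
      have a2 := not_le.1 (ends (m := M x) (n := N x) (τ := x.1.2.2) H 1)
      have a3 := h2 x
      have a4 := h3 x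
      push_cast at a1 a2
      rw [abs_of_nonpos (by split_ifs at a3 <;> linarith)] at a1
      rw [abs_of_nonneg (by split_ifs at a4 <;> linarith)] at a2
      exact ⟨by linarith, by linarith, by linarith⟩)
    (fun x hx y hy hxy h => by
      by_contra h'
      have a0 := l0 x hx
      have a1 := l0 y hy
      obtain ⟨b1, b2, b3⟩ := disj (m := M x) (n := N x) (τ := x.1.2.2) (m' := M y) (n' := N y)
        (τ' := y.1.2.2) (a := ctr p q (M x) (N x) x.1.2.2 - len p q (M x) (N x) x.1.2.2) H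
        (by simp [abs_of_nonneg a0]) (abs_le.2 ⟨by linarith, by linarith⟩)
      apply hxy
      have c1 := h1 x
      have c2 := h2 x
      have c3 := h3 x
      rw [b1, b2, h1 y] at c1
      rw [b1, b2, b3] at c2 c3
      have c4 := h2 y
      have c5 := h3 y
      obtain ⟨⟨e, i, τ⟩, j⟩ := x
      obtain ⟨⟨e', i', τ'⟩, j'⟩ := y
      dsimp only at b3 c1 c2 c3 c4 c5
      have d1 : e = e' ∧ j = j' := by
        cases e <;> cases e' <;> simp at c1 ⊢ <;> omega
      have d2 : i = i' := by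
        cases i <;> cases i' <;> simp at c2 c3 c4 c5 ⊢ <;> linarith
      rw [d1.1, d1.2, d2, b3])
    (fun x hx b hb => by
      dsimp only
      rw [mirror H hb (l0 x hx)])
  refine hg.folds (u := q / 2) (v := q / 2 + 8 * cc p q - ∑ x ∈ I,
    (ctr p q (M x) (N x) x.1.2.2 + len p q (M x) (N x) x.1.2.2
      - (ctr p q (M x) (N x) x.1.2.2 - len p q (M x) (N x) x.1.2.2))) ?_ fun y hy => ?_
  rotate_left
  · obtain ⟨x, hx, rfl⟩ := emb_onto hk0 hy
    obtain ⟨a, ha, b, hb, e, ho⟩ := onto H (q / 2) hx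
    obtain ⟨w, hw, e'⟩ := hc' ⟨b, a⟩ ⟨hb, ha⟩ fun i _ => by
      have := ho (M i) (N i) i.1.2.2
      dsimp only
      rcases le_abs.1 this with h | h
      · right; linarith
      · left; linarith
    exact ⟨w, hw, by rw [e', e]⟩
  · have e : ∑ x ∈ I, (ctr p q (M x) (N x) x.1.2.2 + len p q (M x) (N x) x.1.2.2
        - (ctr p q (M x) (N x) x.1.2.2 - len p q (M x) (N x) x.1.2.2))
        = ∑ x ∈ I, 2 * (ht p q x.1.2.2 - (x.2 + 1)) :=
      Finset.sum_congr rfl fun x _ => by rw [hl]; ring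
    rw [e, hI, Finset.sum_sigma]
    simp only [Fintype.sum_prod_type, Fintype.sum_bool]
    have s1 := sum_len (hht true)
    have s2 := sum_len (hht false)
    have s3 : ht p q true ^ 2 - ht p q true + (ht p q false ^ 2 - ht p q false)
        = cc p q / 2 - q / 2 := by simp only [ht, cc]; ring
    linarith

end Pool.Agent.P.MP_dba4bb_co.Pw
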