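import Mathlib

/-! Coprime pairs near the diagonal with a prescribed norm. -/

namespace Pool.Agent.P.MP_dba4bb_co.Pw

theorem pow_card_le (B m : ℕ) (hB : 0 < B) (hm : m ≠ 0) : B ^ m.primeFactors.card ≤ B ^ B * m := by
  rw [← Finset.card_filter_add_card_filter_not (s := m.primeFactors) (fun l => l < B), pow_add]
  refine Nat.mul_le_mul (Nat.pow_le_pow_right hB ?_) ?_
  · calc _ ≤ (Finset.range B).card := Finset.card_le_card fun l hl =>
          Finset.mem_range.2 (Finset.mem_filter.1 hl).2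
      _ = B := Finset.card_range B
  · calc _ ≤ ∏ l ∈ m.primeFactors.filter (fun l => ¬ l < B), l :=
          Finset.pow_card_le_prod _ _ _ fun l hl => not_lt.1 (Finset.mem_filter.1 hl).2
      _ ≤ m := Nat.le_of_dvd (Nat.pos_of_ne_zero hm)
          ((Finset.prod_dvd_prod_of_subset _ _ _ (Finset.filter_subset _ _)).trans
            (Nat.prod_primeFactors_dvd m))

theorem coprime_near (m y : ℕ) (hm : m ≠ 0) :
    ∃ p : ℕ, y ≤ p ∧ p ≤ y + 16 * 8 ^ m.primeFactors.card ∧ Nat.Coprime p m := by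
  set t := m.primeFactors.card with ht
  set M := primorial t with hM
  have M0 : 0 < M := primorial_pos t
  have M1 : M ≤ 4 ^ t := primorial_le_four_pow t
  by_contra hc
  push Not at hc
  have hb : ∀ i ∈ Finset.range (t + 1), ∃ l ∈ m.primeFactors, l ∣ 1 + (y / M + 1 + i) * M := by
    intro i hi
    have h1 : i ≤ t := Nat.lt_succ_iff.1 (Finset.mem_range.1 hi)
    have h2 := Nat.div_add_mod y M
    have h3 := Nat.mod_lt y M0
    have h4 : t < 2 ^ t := Nat.lt_two_pow_self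
    have h5 : 8 ^ t = 2 ^ t * 4 ^ t := by rw [← Nat.mul_pow]
    have h6 := hc (1 + (y / M + 1 + i) * M) (by nlinarith) (by
      have : (i + 1) * M ≤ 2 ^ t * 4 ^ t := Nat.mul_le_mul (by omega) M1
      have h7 : 0 < 8 ^ t := by positivity
      rw [show 1 + (y / M + 1 + i) * M = 1 + M * (y / M) + (i + 1) * M by ring]
      omega)
    obtain ⟨l, hl, d1, d2⟩ := Nat.Prime.not_coprime_iff_dvd.1 h6
    exact ⟨l, Nat.mem_primeFactors.2 ⟨hl, d2, hm⟩, d1⟩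
  choose! L hL hd using hb
  have key : ∀ i ∈ Finset.range (t + 1), ∀ j ∈ Finset.range (t + 1), i < j → L i ≠ L j := by
    intro i hi j hj hij e
    have hp := Nat.prime_of_mem_primeFactors (hL i hi)
    have d1 := hd i hi
    have d2 := hd j hj
    rw [← e] at d2
    obtain ⟨d, rfl⟩ := Nat.exists_eq_add_of_lt hij
    have d3 : L i ∣ (d + 1) * M := by
      rw [show 1 + (y / M + 1 + (i + d + 1)) * M = 1 + (y / M + 1 + i) * M + (d + 1) * M by ring]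
        at d2
      exact (Nat.dvd_add_right d1).1 d2
    have d4 : L i ∣ M := by
      rcases (Nat.Prime.dvd_mul hp).1 d3 with h | h
      · have := Nat.le_of_dvd (Nat.succ_pos d) h
        have := Finset.mem_range.1 hj
        exact hp.dvd_primorial_iff.2 (by omega)
      · exact h
    exact hp.one_lt.ne' (Nat.dvd_one.1 ((Nat.dvd_add_left (d4.mul_left _)).1 d1))
  obtain ⟨i, hi, j, hj, hij, e⟩ := Finset.exists_ne_map_eq_of_card_lt_of_maps_to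
    (s := Finset.range (t + 1)) (t := m.primeFactors) (by simp [ht]) (f := L) hL
  rcases lt_or_gt_of_ne hij with h | h
  · exact key i hi j hj h e
  · exact key j hj i hi h e.symm

theorem coprime_window {ε : ℝ} (hε : 0 < ε) : ∃ X₀ : ℝ, ∀ m : ℕ, X₀ ≤ m → ∀ y : ℝ, 0 ≤ y →
    ∃ p : ℕ, y ≤ p ∧ p ≤ y + ε * √m ∧ Nat.Coprime p m := by
  obtain ⟨C, hC⟩ : ∃ C : ℕ, ∀ m : ℕ, m ≠ 0 → (8 ^ m.primeFactors.card) ^ 4 ≤ C * m :=
    ⟨(8 ^ 4) ^ (8 ^ 4), fun m hm => by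
      rw [← pow_mul, mul_comm, pow_mul]; exact pow_card_le _ m (by positivity) hm⟩
  refine ⟨17 ^ 4 * C / ε ^ 4 + 1, fun m hm y hy => ?_⟩
  have h0 : (0 : ℝ) ≤ 17 ^ 4 * C / ε ^ 4 := by positivity
  have m0 : (0 : ℝ) < m := by linarith
  have m1 : m ≠ 0 := by exact_mod_cast m0.ne'
  obtain ⟨p, h1, h2, h3⟩ := coprime_near m ⌈y⌉₊ m1
  have h4 : ((8 : ℝ) ^ m.primeFactors.card) ^ 4 ≤ C * m := by exact_mod_cast hC m m1
  have h5 : (1 : ℝ) ≤ 8 ^ m.primeFactors.card := one_le_pow₀ (by norm_num)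
  have h6 : 17 * (8 : ℝ) ^ m.primeFactors.card ≤ ε * √m := by
    refine le_of_pow_le_pow_left₀ (n := 4) (by norm_num) (by positivity) ?_
    have e : √(m : ℝ) ^ 4 = m * m := by
      rw [show √(m : ℝ) ^ 4 = (√(m : ℝ) ^ 2) ^ 2 by ring, Real.sq_sqrt m0.le]; ring
    have h7 : 17 ^ 4 * C ≤ m * ε ^ 4 := (div_le_iff₀ (by positivity)).1 (by linarith)
    rw [mul_pow, mul_pow, e]
    nlinarith [mul_le_mul_of_nonneg_right h7 m0.le]
  have h7 : (p : ℝ) ≤ ⌈y⌉₊ + 16 * 8 ^ m.primeFactors.card := by exact_mod_cast h2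
  exact ⟨p, Nat.ceil_le.1 h1, by linarith [Nat.ceil_lt_add_one hy], h3⟩

theorem pair {ε : ℝ} (hε : 0 < ε) (hε1 : ε ≤ 1) : ∃ X₀ : ℝ, ∀ X : ℝ, X₀ ≤ X → ∃ p q : ℤ,
    (0 : ℝ) < p ∧ (p : ℝ) < q ∧ (q : ℝ) ≤ 2 * p ∧ (10 : ℝ) ≤ q ∧ IsCoprime p q ∧
    (X - ε) ^ 2 ≤ 2 * ((p : ℝ) ^ 2 + (q : ℝ) ^ 2) ∧ 2 * ((p : ℝ) ^ 2 + (q : ℝ) ^ 2) ≤ X ^ 2 ∧
    2 * (q : ℝ) ≤ X + ε * X := by
  obtain ⟨X₁, h₁⟩ := coprime_window (show 0 < ε / 8 by positivity)
  refine ⟨max (X₁ + 2) (100 / ε ^ 2), fun X hX => ?_⟩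
  have a1 : X₁ + 2 ≤ X := (le_max_left _ _).trans hX
  have a2 : 100 ≤ X * ε ^ 2 := (div_le_iff₀ (by positivity)).1 ((le_max_right _ _).trans hX)
  have a3 : 0 < X := by by_contra h; nlinarith [sq_nonneg ε]
  have a4 : 100 ≤ X := by nlinarith [mul_le_one₀ hε1 hε.le hε1]
  obtain ⟨R, R0, RX⟩ : ∃ R : ℝ, 0 ≤ R ∧ R ^ 2 = X := ⟨√X, Real.sqrt_nonneg _, Real.sq_sqrt a3.le⟩
  have a5 : 10 ≤ R * ε := by
    by_contra h
    nlinarith [mul_nonneg R0 hε.le]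
  have a6 : 10 ≤ R := by nlinarith
  obtain ⟨m, m1, m2⟩ : ∃ m : ℕ, X - 2 ≤ m ∧ m ≤ X - 1 :=
    ⟨⌊X - 1⌋₊, by linarith [Nat.lt_floor_add_one (X - 1)], Nat.floor_le (by linarith)⟩
  obtain ⟨J, J0, JX⟩ : ∃ J : ℝ, 0 ≤ J ∧ J ^ 2 = X ^ 2 - m ^ 2 :=
    ⟨√(X ^ 2 - m ^ 2), Real.sqrt_nonneg _, Real.sq_sqrt (by nlinarith)⟩
  have J1 : R ≤ J := by by_contra h; nlinarith
  have J2 : J ≤ 2 * R := by by_contra h; nlinarith
  have a7 : 10 * R ≤ X := by nlinarith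
  obtain ⟨p, p1, p2, p3⟩ := h₁ m (by linarith) ((m - J) / 2) (by linarith)
  have s1 : √(m : ℝ) ≤ R := Real.sqrt_le_iff.2 ⟨R0, by linarith⟩
  have p4 : (p : ℝ) ≤ (m - J) / 2 + ε / 8 * R := by nlinarith
  have a8 : ε * R ≤ R := by nlinarith
  refine ⟨p, (m : ℤ) - p, ?_, ?_, ?_, ?_, ?_, ?_, ?_, ?_⟩
  · push_cast; linarith
  · push_cast; linarith
  · push_cast; linarith
  · push_cast; linarith
  · have := (Nat.isCoprime_iff_coprime.2 p3).add_mul_left_right (-1)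
    rwa [mul_neg_one, ← sub_eq_add_neg] at this
  · push_cast
    have e : 2 * ((p : ℝ) ^ 2 + (m - p) ^ 2) = m ^ 2 + (m - 2 * p) ^ 2 := by ring
    have b1 : (J - ε / 4 * R) ^ 2 ≤ ((m : ℝ) - 2 * p) ^ 2 :=
      pow_le_pow_left₀ (by linarith) (by linarith) 2
    have b2 : J * (ε * R) ≤ 2 * R * (ε * R) := mul_le_mul_of_nonneg_right J2 (by positivity)
    rw [e]
    nlinarith [sq_nonneg (ε / 4 * R)]
  · push_cast
    have e : 2 * ((p : ℝ) ^ 2 + (m - p) ^ 2) = m ^ 2 + (m - 2 * p) ^ 2 := by ring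
    have b1 : ((m : ℝ) - 2 * p) ^ 2 ≤ J ^ 2 := pow_le_pow_left₀ (by linarith) (by linarith) 2
    rw [e]; linarith
  · push_cast
    nlinarith

end Pool.Agent.P.MP_dba4bb_co.Pw
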